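import Pool.Agent.W2helper76.RW.Core

/-!
# The average over the no-instances; the depth bound for a constant advantage
-/

set_option autoImplicit false
set_option linter.unusedSectionVars false

open Finset

namespace Pool.Agent.W2helper76.RW

variable {ι : Type} [DecidableEq ι] [Fintype ι]

lemma Eno_mono (f g : Finset ι → ℝ) (h : ∀ y, f y ≤ g y) : Eno f ≤ Eno g := by
  unfold Eno T1
  gcongr
  exact h _

lemma Eno_one (hN : 1 ≤ Fintype.card ι) : Eno (fun _ : Finset ι => (1 : ℝ)) = 1 := by
  unfold Eno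
  have h := T1_one (ι := ι)
  have hN0 : (0 : ℝ) < Fintype.card ι := by exact_mod_cast hN
  have hP0 : (0 : ℝ) < 4 ^ Fintype.card ι := by positivity
  field_simp
  linarith

/-- The average is given by weights. -/
lemma Eno_weights (hN : 1 ≤ Fintype.card ι) : ∃ q : Finset ι → ℝ, (∀ y, 0 ≤ q y) ∧
    (∑ y, q y = 1) ∧ ∀ f, Eno f = ∑ y, q y * f y := by
  classical
  let L : (Finset ι → ℝ) →ₗ[ℝ] ℝ :=
    { toFun := Eno
      map_add' := by
        intro f g
        unfold Eno
        have := T1_add (ι := ι) (fun _ y => f y) (fun _ y => g y)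
        simp only [Pi.add_apply]
        rw [this]
        ring
      map_smul' := by
        intro a f
        unfold Eno T1
        simp only [Pi.smul_apply, smul_eq_mul, RingHom.id_apply, ← Finset.mul_sum]
        ring }
  have hL : ∀ f, Eno f = L f := fun _ => rfl
  have h0 : Eno (fun _ : Finset ι => (0 : ℝ)) = 0 := by
    have := L.map_zero
    exact this
  have key : ∀ f, Eno f = ∑ y, L (fun j => if y = j then 1 else 0) * f y := by
    intro f
    rw [hL, LinearMap.pi_apply_eq_sum_univ L f]
    apply Finset.sum_congr rfl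
    intro y _
    rw [smul_eq_mul, mul_comm]
  refine ⟨fun y => L (fun j => if y = j then 1 else 0), ?_, ?_, key⟩
  · intro y
    have h1 : Eno (fun _ : Finset ι => (0 : ℝ)) ≤ Eno (fun j => if y = j then (1 : ℝ) else 0) :=
      Eno_mono _ _ (fun j => by split_ifs <;> norm_num)
    rw [h0] at h1
    exact h1
  · have h1 := key (fun _ => 1)
    rw [Eno_one hN] at h1
    simp only [mul_one] at h1
    exact h1.symm

/-- Monotone formulas with a constant advantage have linear depth. -/
theorem core_depth {δ : ℝ} (hδ : 0 < δ) : ∃ ε c : ℝ, 0 < ε ∧ 0 < c ∧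
    ∀ (ι : Type) [DecidableEq ι] [Fintype ι], 1 ≤ Fintype.card ι → ∀ F : MF (WV ι),
      δ * Fintype.card (GV ι) ≤ acc F (mX ∅) - Eno (fun y => acc F (mY y)) →
      c * Real.exp (ε * Fintype.card ι) ≤ 2 ^ F.depth + 2 := by
  set η := min δ 1 with hη
  have hη0 : 0 < η := lt_min hδ one_pos
  have hη1 : η ≤ 1 := min_le_right _ _
  have hηδ : η ≤ δ := min_le_left _ _
  obtain ⟨ε, C, hε, hC, hrect⟩ := corruption_norm (c0 := 1 - η / 4) (by linarith) (by linarith)
  refine ⟨ε, η / 4 / (C + 1), hε, by positivity, ?_⟩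
  intro ι _ _ hN F hF
  have h := core_ineq hN (c0 := 1 - η / 4) (τ := C * Real.exp (-(ε * Fintype.card ι))) (by positivity)
    (fun A B => hrect ι hN A B) F
  have hΓ0 : (0 : ℝ) < Fintype.card (GV ι) := by exact_mod_cast Fintype.card_pos
  have h1 : η / 2 ≤ (acc F (mX ∅) - Eno (fun y => acc F (mY y))) / (2 * Fintype.card (GV ι)) := by
    rw [le_div_iff₀ (by positivity)]
    nlinarith
  have h2 : η / 4 ≤ (2 ^ F.depth + 2) * (C * Real.exp (-(ε * Fintype.card ι))) := by linarith
  have hP : (0 : ℝ) < 2 ^ F.depth + 2 := by positivity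
  have h3 : η / 4 * Real.exp (ε * Fintype.card ι) ≤ (2 ^ F.depth + 2) * (C + 1) := by
    calc η / 4 * Real.exp (ε * Fintype.card ι)
        ≤ (2 ^ F.depth + 2) * (C * Real.exp (-(ε * Fintype.card ι))) * Real.exp (ε * Fintype.card ι) :=
          mul_le_mul_of_nonneg_right h2 (Real.exp_pos _).le
      _ = (2 ^ F.depth + 2) * C * (Real.exp (-(ε * Fintype.card ι)) * Real.exp (ε * Fintype.card ι)) := by ring
      _ = (2 ^ F.depth + 2) * C := by rw [← Real.exp_add]; simp
      _ ≤ (2 ^ F.depth + 2) * (C + 1) := by gcongr; linarith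
  rw [div_mul_eq_mul_div, div_le_iff₀ (by positivity)]
  exact h3

end Pool.Agent.W2helper76.RW
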