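import Pool.Agent.W2helper76.RW.Corrupt

/-!
# Monotone formulas, their search procedure, and the corruption bound for it
-/

set_option autoImplicit false
set_option linter.unusedSectionVars false

open Finset

namespace Pool.Agent.W2helper76.RW

variable {ι : Type} [DecidableEq ι] [Fintype ι]

/-- The normalised corruption bound. -/
theorem corruption_norm {c0 : ℝ} (h0 : 0 < c0) (h1 : c0 < 1) : ∃ ε C : ℝ, 0 < ε ∧ 0 ≤ C ∧
    ∀ (ι : Type) [DecidableEq ι] [Fintype ι], 1 ≤ Fintype.card ι → ∀ A B : Finset ι → Prop,
      c0 * S0 (rect A B) ≤ 4 / (Fintype.card ι : ℝ) * T1 (rect A B) +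
        C * Real.exp (-(ε * Fintype.card ι)) * 4 ^ Fintype.card ι := by
  set h := (1 - c0) / 4 with hh
  set κ := 1 + h with hκ
  have hh0 : 0 < h := by rw [hh]; linarith
  have hh1 : h < 1 := by rw [hh]; linarith
  have hκ1 : 1 < κ := by linarith
  set F := (2 + κ) * (4 / ((κ - 1) / (κ + 1)) ^ 2) with hF
  have hβ : 0 < (κ - 1) / (κ + 1) := div_pos (by linarith) (by linarith)
  have hF0 : 0 < F := by rw [hF]; positivity
  set ε := (1 - c0) / ((1 + c0) * F) with hε
  have hε0 : 0 < ε := by rw [hε]; apply div_pos (by linarith); positivity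
  refine ⟨ε, F, hε0, hF0.le, ?_⟩
  intro ι _ _ hN A B
  set N : ℝ := (Fintype.card ι : ℝ) with hNN
  have hN1 : (1 : ℝ) ≤ N := by rw [hNN]; exact_mod_cast hN
  have hc := corruption hκ1 (ε * N) A B
  rw [← hNN] at hc
  set S := S0 (rect A B)
  set T := T1 (rect A B)
  have hS : 0 ≤ S := by
    show 0 ≤ S0 (rect A B)
    rw [S0_rect]
    exact Finset.sum_nonneg (fun Z _ => mul_nonneg (cnt_nonneg _ _) (cnt_nonneg _ _))
  have hT : 0 ≤ T := by
    show 0 ≤ T1 (rect A B)
    rw [T1_rect]
    exact Finset.sum_nonneg (fun i _ => Finset.sum_nonneg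
      (fun Z _ => mul_nonneg (cnt_nonneg _ _) (cnt_nonneg _ _)))
  set G : ℝ := 4 ^ Fintype.card ι * Real.exp (-(ε * N)) with hG
  have hG0 : 0 ≤ G := by positivity
  have hFε : 1 - F * ε = 2 * c0 / (1 + c0) := by
    rw [hε]; field_simp; ring
  -- `N S (1 - F ε) ≤ K T + F G`
  have e1 : N * S * (2 * c0 / (1 + c0)) ≤ 2 * κ * (κ + 1) * T + F * G := by
    rw [← hFε]
    have : (2 + κ) * (4 / ((κ - 1) / (κ + 1)) ^ 2 * (ε * N * S + G)) = F * (ε * N * S + G) := by
      rw [hF]; ring
    rw [this] at hc
    linarith
  have hK : 2 * κ * (κ + 1) ≤ 2 * (3 - c0) := by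
    rw [hκ]; nlinarith
  have hTT : 2 * κ * (κ + 1) * T ≤ 2 * (3 - c0) * T := mul_le_mul_of_nonneg_right hK hT
  have e2 : N * S * (2 * c0 / (1 + c0)) ≤ 2 * (3 - c0) * T + F * G := by linarith
  -- multiply by `4 / ((3 - c0) * 2 N)`
  have e3 : c0 * S ≤ (4 / N) * T + F * G := by
    have hk : (3 - c0) * (1 + c0) ≤ 4 := by nlinarith [sq_nonneg (1 - c0)]
    have e4 : N * S * (2 * c0) ≤ (1 + c0) * (2 * (3 - c0) * T + F * G) := by
      have : N * S * (2 * c0) = (1 + c0) * (N * S * (2 * c0 / (1 + c0))) := by
        field_simp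
      rw [this]
      exact mul_le_mul_of_nonneg_left e2 (by linarith)
    have e5 : N * S * (2 * c0) ≤ 8 * T + 2 * (F * G) := by
      have h7 : (1 + c0) * (2 * (3 - c0) * T) ≤ 8 * T := by nlinarith
      have h8 : (1 + c0) * (F * G) ≤ 2 * (F * G) := by
        apply mul_le_mul_of_nonneg_right (by linarith) (by positivity)
      linarith
    have e6 : c0 * S = (N * S * (2 * c0)) / (2 * N) := by field_simp
    rw [e6, div_le_iff₀ (by positivity)]
    have h9 : 4 / N * T * (2 * N) = 8 * T := by field_simp; ring
    have h10 : F * G * 2 ≤ F * G * (2 * N) := by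
      apply mul_le_mul_of_nonneg_left (by linarith) (by positivity)
    calc N * S * (2 * c0) ≤ 8 * T + 2 * (F * G) := e5
      _ ≤ (4 / N * T + F * G) * (2 * N) := by rw [add_mul, h9]; linarith
  calc c0 * S ≤ (4 / N) * T + F * G := e3
    _ = _ := by rw [hG]; ring

/-! ### Formulas -/

/-- Monotone formulas. -/
inductive MF (W : Type) : Type
  | const (b : Bool) : MF W
  | var (w : W) : MF W
  | and (f g : MF W) : MF W
  | or (f g : MF W) : MF W

namespace MF

variable {W : Type}

/-- the value of a formula -/
def eval : MF W → (W → Bool) → Bool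
  | const b, _ => b
  | var w, z => z w
  | and f g, z => f.eval z && g.eval z
  | or f g, z => f.eval z || g.eval z

/-- the depth of a formula -/
def depth : MF W → ℕ
  | const _ => 0
  | var _ => 0
  | and f g => max f.depth g.depth + 1
  | or f g => max f.depth g.depth + 1

lemma eval_mono (f : MF W) {z z' : W → Bool} (h : ∀ w, z w = true → z' w = true) :
    f.eval z = true → f.eval z' = true := by
  induction f with
  | const b => exact id
  | var w => exact h w
  | and f g hf hg =>
    simp only [eval, Bool.and_eq_true]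
    exact fun ⟨a, b⟩ => ⟨hf a, hg b⟩
  | or f g hf hg =>
    simp only [eval, Bool.or_eq_true]
    exact fun a => a.imp hf hg

/-- the search procedure (Karchmer and Wigderson) -/
def lab : MF W → (W → Bool) → (W → Bool) → Option W
  | const _, _, _ => none
  | var w, _, _ => some w
  | and f g, x, y => if f.eval y = true then g.lab x y else f.lab x y
  | or f g, x, y => if f.eval x = true then f.lab x y else g.lab x y

lemma lab_spec (f : MF W) (x y : W → Bool) (hx : f.eval x = true) (hy : f.eval y = false) :
    ∃ w, f.lab x y = some w ∧ x w = true ∧ y w = false := by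
  induction f with
  | const b => simp only [eval] at hx hy; rw [hx] at hy; exact absurd hy (by simp)
  | var w => exact ⟨w, rfl, hx, hy⟩
  | and f g hf hg =>
    simp only [eval, Bool.and_eq_true] at hx
    simp only [eval, Bool.and_eq_false_iff] at hy
    unfold lab
    by_cases h : f.eval y = true
    · rw [if_pos h]
      rcases hy with hy | hy
      · rw [h] at hy; exact absurd hy (by simp)
      · exact hg hx.2 hy
    · rw [if_neg h]
      exact hf hx.1 (by simpa using h)
  | or f g hf hg =>
    simp only [eval, Bool.or_eq_true] at hx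
    simp only [eval, Bool.or_eq_false_iff] at hy
    unfold lab
    by_cases h : f.eval x = true
    · rw [if_pos h]; exact hf h hy.1
    · rw [if_neg h]
      rcases hx with hx | hx
      · exact absurd hx h
      · exact hg hx hy.2

end MF

/-- linearity of the two functionals -/
lemma S0_add (f g : Finset ι → Finset ι → ℝ) : S0 (fun x y => f x y + g x y) = S0 f + S0 g := by
  unfold S0; simp only [Finset.sum_add_distrib]

lemma T1_add (f g : Finset ι → Finset ι → ℝ) : T1 (fun x y => f x y + g x y) = T1 f + T1 g := by
  unfold T1; simp only [Finset.sum_add_distrib]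

lemma S0_zero : S0 (fun _ _ => 0 : Finset ι → Finset ι → ℝ) = 0 := by
  unfold S0; simp

lemma T1_zero : T1 (fun _ _ => 0 : Finset ι → Finset ι → ℝ) = 0 := by
  unfold T1; simp

variable {W : Type}

open Classical in
/-- the indicator of the part of a rectangle where the search procedure returns `w` -/
noncomputable def region (X Y : Finset ι → W → Bool) (w : W) (A B : Finset ι → Prop) (F : MF W) :
    Finset ι → Finset ι → ℝ := fun x y =>
  if A x ∧ B y ∧ F.eval (X x) = true ∧ F.eval (Y y) = false ∧ F.lab (X x) (Y y) = some w then 1 else 0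

/-- The corruption bound for the search procedure of a formula. -/
lemma region_bound {c0 τ M : ℝ} (hτ : 0 ≤ τ)
    (hrect : ∀ A B : Finset ι → Prop, c0 * S0 (rect A B) ≤ M * T1 (rect A B) + τ)
    (X Y : Finset ι → W → Bool) (w : W) (F : MF W) :
    ∀ A B : Finset ι → Prop, c0 * S0 (region X Y w A B F) ≤
      M * T1 (region X Y w A B F) + 2 ^ F.depth * τ := by
  classical
  induction F with
  | const b =>
    intro A B
    have : region X Y w A B (MF.const b) = fun _ _ => 0 := by
      funext x y
      unfold region
      rw [if_neg]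
      rintro ⟨-, -, h1, h2, -⟩
      simp only [MF.eval] at h1 h2
      rw [h1] at h2; exact absurd h2 (by simp)
    rw [this, S0_zero, T1_zero]
    simp only [mul_zero, zero_add]
    positivity
  | var v =>
    intro A B
    by_cases hv : v = w
    · have : region X Y w A B (MF.var v) =
          rect (fun x => A x ∧ X x v = true) (fun y => B y ∧ Y y v = false) := by
        funext x y
        unfold region rect
        simp only [MF.eval, MF.lab, hv, and_true]
        by_cases h1 : A x <;> by_cases h2 : B y <;> by_cases h3 : X x w = true <;>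
          by_cases h4 : Y y w = false <;> simp [h1, h2, h3, h4]
      rw [this]
      have := hrect (fun x => A x ∧ X x v = true) (fun y => B y ∧ Y y v = false)
      simpa [MF.depth] using this
    · have : region X Y w A B (MF.var v) = fun _ _ => 0 := by
        funext x y
        unfold region
        rw [if_neg]
        rintro ⟨-, -, -, -, h⟩
        simp only [MF.lab, Option.some.injEq] at h
        exact hv h
      rw [this, S0_zero, T1_zero]
      simp only [mul_zero, zero_add]
      positivity
  | and f g hf hg =>
    intro A B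
    have key : region X Y w A B (MF.and f g) = fun x y =>
        region X Y w (fun x => A x ∧ g.eval (X x) = true) B f x y +
        region X Y w (fun x => A x ∧ f.eval (X x) = true) (fun y => B y ∧ f.eval (Y y) = true) g x y := by
      funext x y
      unfold region
      simp only [MF.eval, MF.lab]
      by_cases h1 : A x <;> by_cases h2 : B y <;>
        rcases Bool.eq_false_or_eq_true (f.eval (X x)) with h3 | h3 <;>
        rcases Bool.eq_false_or_eq_true (g.eval (X x)) with h4 | h4 <;>
        rcases Bool.eq_false_or_eq_true (f.eval (Y y)) with h5 | h5 <;>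
        rcases Bool.eq_false_or_eq_true (g.eval (Y y)) with h6 | h6 <;>
        simp [h1, h2, h3, h4, h5, h6]
    rw [key, S0_add, T1_add]
    have e1 := hf (fun x => A x ∧ g.eval (X x) = true) B
    have e2 := hg (fun x => A x ∧ f.eval (X x) = true) (fun y => B y ∧ f.eval (Y y) = true)
    have e3 : (2 : ℝ) ^ f.depth * τ + 2 ^ g.depth * τ ≤ 2 ^ (MF.and f g).depth * τ := by
      rw [← add_mul]
      apply mul_le_mul_of_nonneg_right _ hτ
      show (2 : ℝ) ^ f.depth + 2 ^ g.depth ≤ 2 ^ (max f.depth g.depth + 1)
      have a1 : (2 : ℝ) ^ f.depth ≤ 2 ^ (max f.depth g.depth) :=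
        pow_le_pow_right₀ (by norm_num) (le_max_left _ _)
      have a2 : (2 : ℝ) ^ g.depth ≤ 2 ^ (max f.depth g.depth) :=
        pow_le_pow_right₀ (by norm_num) (le_max_right _ _)
      rw [pow_succ]; linarith
    linarith
  | or f g hf hg =>
    intro A B
    have key : region X Y w A B (MF.or f g) = fun x y =>
        region X Y w A (fun y => B y ∧ g.eval (Y y) = false) f x y +
        region X Y w (fun x => A x ∧ f.eval (X x) = false) (fun y => B y ∧ f.eval (Y y) = false) g x y := by
      funext x y
      unfold region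
      simp only [MF.eval, MF.lab]
      by_cases h1 : A x <;> by_cases h2 : B y <;>
        rcases Bool.eq_false_or_eq_true (f.eval (X x)) with h3 | h3 <;>
        rcases Bool.eq_false_or_eq_true (g.eval (X x)) with h4 | h4 <;>
        rcases Bool.eq_false_or_eq_true (f.eval (Y y)) with h5 | h5 <;>
        rcases Bool.eq_false_or_eq_true (g.eval (Y y)) with h6 | h6 <;>
        simp [h1, h2, h3, h4, h5, h6]
    rw [key, S0_add, T1_add]
    have e1 := hf A (fun y => B y ∧ g.eval (Y y) = false)
    have e2 := hg (fun x => A x ∧ f.eval (X x) = false) (fun y => B y ∧ f.eval (Y y) = false)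
    have e3 : (2 : ℝ) ^ f.depth * τ + 2 ^ g.depth * τ ≤ 2 ^ (MF.or f g).depth * τ := by
      rw [← add_mul]
      apply mul_le_mul_of_nonneg_right _ hτ
      show (2 : ℝ) ^ f.depth + 2 ^ g.depth ≤ 2 ^ (max f.depth g.depth + 1)
      have a1 : (2 : ℝ) ^ f.depth ≤ 2 ^ (max f.depth g.depth) :=
        pow_le_pow_right₀ (by norm_num) (le_max_left _ _)
      have a2 : (2 : ℝ) ^ g.depth ≤ 2 ^ (max f.depth g.depth) :=
        pow_le_pow_right₀ (by norm_num) (le_max_right _ _)
      rw [pow_succ]; linarith
    linarith

end Pool.Agent.W2helper76.RW
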