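import Pool.Agent.W2helper76.RW.Circuit
import Pool.Agent.W2helper76.RW.Formula

/-!
# Circuits with NOT gates: the order argument of Markov, frozen formulas
-/

set_option autoImplicit false

open Finset

namespace Pool.Agent.W2helper76.RW

/-- geometric sum along a finite set -/
lemma geo {α : Type} [LinearOrder α] (T : Finset α) :
    ∑ i ∈ T, 2 ^ (T.filter (fun j => i < j)).card + 1 = 2 ^ T.card := by
  induction T using Finset.induction_on_max with
  | empty => simp
  | insert a s hs ih =>
    have ha : a ∉ s := fun h => lt_irrefl a (hs a h)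
    rw [Finset.sum_insert ha, Finset.card_insert_of_notMem ha]
    have e1 : (insert a s).filter (fun j => a < j) = ∅ := by
      rw [Finset.filter_eq_empty_iff]
      intro j hj
      rw [mem_insert] at hj
      rcases hj with rfl | hj
      · exact lt_irrefl _
      · exact (hs j hj).not_gt
    have e2 : ∀ i ∈ s, (2 : ℕ) ^ ((insert a s).filter (fun j => i < j)).card =
        2 * 2 ^ (s.filter (fun j => i < j)).card := by
      intro i hi
      rw [Finset.filter_insert, if_pos (hs i hi), Finset.card_insert_of_notMem, pow_succ, mul_comm]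
      intro h
      exact ha (Finset.mem_filter.1 h).1
    rw [e1, Finset.sum_congr rfl e2, ← Finset.mul_sum, Finset.card_empty, pow_succ]
    omega

variable {I W : Type}

namespace Circuit

variable (C : Circuit I)

open Classical in
/-- The NOT gates of depth at most `D`. -/
noncomputable def nots (D : ℕ) : Finset (Fin C.s) := univ.filter (fun i => C.IsNot i ∧ C.depth i ≤ D)

lemma mem_nots {D : ℕ} {i : Fin C.s} : i ∈ C.nots D ↔ C.IsNot i ∧ C.depth i ≤ D := by
  classical
  simp [nots]

lemma card_nots (D : ℕ) : (C.nots D).card ≤ C.numNot := by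
  classical
  unfold numNot
  rw [← Set.ncard_coe_finset]
  apply Set.ncard_le_ncard _ (Set.toFinite _)
  intro i hi
  rw [Finset.mem_coe, mem_nots] at hi
  exact hi.1

/-- If the NOT gates up to the gate `i` have the same values, then the value of `i` is monotone. -/
lemma mono_upto {D : ℕ} {x x' : I → Bool} (h : ∀ p, x p = true → x' p = true) :
    ∀ (n : ℕ) (i : Fin C.s), i.val = n → C.depth i ≤ D →
      (∀ j ∈ C.nots D, j ≤ i → C.val x j = C.val x' j) → C.val x i = true → C.val x' i = true := by
  intro n
  induction n using Nat.strong_induction_on with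
  | _ n ih =>
    intro i hn hD hj hx
    cases hg : C.gate i with
    | inp p => rw [C.val_inp hg] at hx ⊢; exact h p hx
    | const c => rw [C.val_const hg] at hx ⊢; exact hx
    | not a =>
      have := hj i (C.mem_nots.2 ⟨⟨a, hg⟩, hD⟩) le_rfl
      rw [← this]; exact hx
    | and a b =>
      obtain ⟨ha, hb⟩ := C.and_lt i a b hg
      rw [C.depth_and hg] at hD
      rw [C.val_and hg, Bool.and_eq_true] at hx ⊢
      exact ⟨ih a.val (by rw [← hn]; exact ha) a rfl (by omega)
          (fun j hjD hja => hj j hjD (hja.trans ha.le)) hx.1,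
        ih b.val (by rw [← hn]; exact hb) b rfl (by omega)
          (fun j hjD hja => hj j hjD (hja.trans hb.le)) hx.2⟩
    | or a b =>
      obtain ⟨ha, hb⟩ := C.or_lt i a b hg
      rw [C.depth_or hg] at hD
      rw [C.val_or hg, Bool.or_eq_true] at hx ⊢
      exact hx.imp (ih a.val (by rw [← hn]; exact ha) a rfl (by omega)
          (fun j hjD hja => hj j hjD (hja.trans ha.le)))
        (ih b.val (by rw [← hn]; exact hb) b rfl (by omega)
          (fun j hjD hja => hj j hjD (hja.trans hb.le)))

/-- the weight of the vector of the values of the NOT gates -/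
noncomputable def wt (D : ℕ) (x : I → Bool) : ℕ :=
  ∑ i ∈ C.nots D, if C.val x i = false then 2 ^ ((C.nots D).filter (fun j => i < j)).card else 0

lemma wt_lt (D : ℕ) (x : I → Bool) : C.wt D x + 1 ≤ 2 ^ (C.nots D).card := by
  rw [← geo]
  unfold wt
  gcongr with i hi
  split_ifs
  · exact le_rfl
  · exact Nat.zero_le _

/-- A NOT gate has different values. -/
def Changed (D : ℕ) (x x' : I → Bool) : Prop := ∃ i ∈ C.nots D, C.val x i ≠ C.val x' i

open Classical in
lemma wt_step {D : ℕ} {x x' : I → Bool} (h : ∀ p, x p = true → x' p = true) :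
    C.wt D x + (if C.Changed D x x' then 1 else 0) ≤ C.wt D x' := by
  by_cases hc : C.Changed D x x'
  · rw [if_pos hc]
    set B := (C.nots D).filter (fun i => C.val x i ≠ C.val x' i) with hB
    have hne : B.Nonempty := by
      obtain ⟨i, hi, hi'⟩ := hc
      exact ⟨i, Finset.mem_filter.2 ⟨hi, hi'⟩⟩
    set j := B.min' hne with hj
    have hjB : j ∈ B := B.min'_mem hne
    obtain ⟨hjT, hjne⟩ := Finset.mem_filter.1 hjB
    have hless : ∀ i ∈ C.nots D, i < j → C.val x i = C.val x' i := by
      intro i hi hij
      by_contra hne'
      exact absurd (B.min'_le i (Finset.mem_filter.2 ⟨hi, hne'⟩)) (by rw [← hj]; exact hij.not_ge)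
    obtain ⟨⟨a, ha⟩, hjD⟩ := C.mem_nots.1 hjT
    have haj := C.not_lt j a ha
    have hm : C.val x a = true → C.val x' a = true := by
      refine C.mono_upto (D := D) h a.val a rfl ?_ ?_
      · rw [C.depth_not ha] at hjD; exact hjD
      · intro i hi hia
        exact hless i hi (lt_of_le_of_lt hia haj)
    have hvx : C.val x j = true ∧ C.val x' j = false := by
      rw [C.val_not ha, C.val_not ha] at hjne ⊢
      cases h1 : C.val x a with
      | true => exact absurd (by rw [h1, hm h1]) hjne
      | false =>
        cases h2 : C.val x' a with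
        | true => simp
        | false => exact absurd (by rw [h1, h2]) hjne
    set T := C.nots D with hT
    have split : ∀ y : I → Bool, C.wt D y =
        (∑ i ∈ T.filter (fun i => i < j), if C.val y i = false then 2 ^ (T.filter (fun k => i < k)).card else 0) +
        ((if C.val y j = false then 2 ^ (T.filter (fun k => j < k)).card else 0) +
        ∑ i ∈ T.filter (fun i => j < i), if C.val y i = false then 2 ^ (T.filter (fun k => i < k)).card else 0) := by
      intro y
      unfold wt
      rw [← hT, ← Finset.sum_filter_add_sum_filter_not T (fun i => i < j)]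
      congr 1
      have : T.filter (fun i => ¬ i < j) = insert j (T.filter (fun i => j < i)) := by
        ext i
        simp only [mem_filter, mem_insert, _root_.not_lt]
        constructor
        · rintro ⟨h1, h2⟩
          rcases h2.eq_or_lt with h3 | h3
          · exact Or.inl h3.symm
          · exact Or.inr ⟨h1, h3⟩
        · rintro (h1 | h1)
          · rw [h1]; exact ⟨hjT, le_rfl⟩
          · exact ⟨h1.1, h1.2.le⟩
      rw [this, Finset.sum_insert]
      simp
    rw [split x, split x', if_neg (by rw [hvx.1]; simp), if_pos hvx.2]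
    have e1 : (∑ i ∈ T.filter (fun i => i < j), if C.val x i = false then 2 ^ (T.filter (fun k => i < k)).card else 0) =
        ∑ i ∈ T.filter (fun i => i < j), if C.val x' i = false then 2 ^ (T.filter (fun k => i < k)).card else 0 := by
      apply Finset.sum_congr rfl
      intro i hi
      rw [hless i (Finset.mem_filter.1 hi).1 (Finset.mem_filter.1 hi).2]
    rw [e1]
    have e2 : (∑ i ∈ T.filter (fun i => j < i), if C.val x i = false then 2 ^ (T.filter (fun k => i < k)).card else 0) + 1
        ≤ 2 ^ (T.filter (fun k => j < k)).card := by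
      rw [← geo]
      gcongr with i hi
      have : (T.filter (fun k => j < k)).filter (fun k => i < k) = T.filter (fun k => i < k) := by
        ext k
        simp only [mem_filter]
        constructor
        · rintro ⟨⟨h1, _⟩, h3⟩; exact ⟨h1, h3⟩
        · rintro ⟨h1, h3⟩; exact ⟨⟨h1, (Finset.mem_filter.1 hi).2.trans h3⟩, h3⟩
      rw [this]
      split_ifs
      · exact le_rfl
      · exact Nat.zero_le _
    omega
  · rw [if_neg hc, add_zero]
    unfold wt
    apply Finset.sum_le_sum
    intro i hi
    have : C.val x i = C.val x' i := by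
      by_contra hne
      exact hc ⟨i, hi, hne⟩
    rw [this]

/-- The formula obtained from the circuit by fixing the values of the NOT gates. -/
def fr (φ : I → Option W) (u : I → Bool) (v0 : Fin C.s → Bool) (i : Fin C.s) : MF W :=
  match h : C.gate i with
  | Gate.inp p => match φ p with
    | some w => MF.var w
    | none => MF.const (u p)
  | Gate.const c => MF.const c
  | Gate.not _ => MF.const (v0 i)
  | Gate.and a b => have := C.and_lt i a b h; MF.and (fr φ u v0 a) (fr φ u v0 b)
  | Gate.or a b => have := C.or_lt i a b h; MF.or (fr φ u v0 a) (fr φ u v0 b)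
termination_by i.val
decreasing_by all_goals first | exact this.1 | exact this.2

lemma fr_inp {φ : I → Option W} {u : I → Bool} {v0 : Fin C.s → Bool} {i : Fin C.s} {p : I}
    (h : C.gate i = Gate.inp p) : C.fr φ u v0 i = match φ p with
    | some w => MF.var w
    | none => MF.const (u p) := by
  rw [fr]; split <;> simp_all

lemma fr_const {φ : I → Option W} {u : I → Bool} {v0 : Fin C.s → Bool} {i : Fin C.s} {c : Bool}
    (h : C.gate i = Gate.const c) : C.fr φ u v0 i = MF.const c := by
  rw [fr]; split <;> simp_all

lemma fr_not {φ : I → Option W} {u : I → Bool} {v0 : Fin C.s → Bool} {i a : Fin C.s}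
    (h : C.gate i = Gate.not a) : C.fr φ u v0 i = MF.const (v0 i) := by
  rw [fr]; split <;> simp_all

lemma fr_and {φ : I → Option W} {u : I → Bool} {v0 : Fin C.s → Bool} {i a b : Fin C.s}
    (h : C.gate i = Gate.and a b) : C.fr φ u v0 i = MF.and (C.fr φ u v0 a) (C.fr φ u v0 b) := by
  rw [fr]; split <;> simp_all

lemma fr_or {φ : I → Option W} {u : I → Bool} {v0 : Fin C.s → Bool} {i a b : Fin C.s}
    (h : C.gate i = Gate.or a b) : C.fr φ u v0 i = MF.or (C.fr φ u v0 a) (C.fr φ u v0 b) := by
  rw [fr]; split <;> simp_all

lemma fr_depth (φ : I → Option W) (u : I → Bool) (v0 : Fin C.s → Bool) :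
    ∀ (n : ℕ) (i : Fin C.s), i.val = n → (C.fr φ u v0 i).depth ≤ C.depth i := by
  intro n
  induction n using Nat.strong_induction_on with
  | _ n ih =>
    intro i hn
    cases hg : C.gate i with
    | inp p => rw [C.fr_inp hg]; cases φ p <;> simp [MF.depth]
    | const c => rw [C.fr_const hg]; simp [MF.depth]
    | not a => rw [C.fr_not hg]; simp [MF.depth]
    | and a b =>
      obtain ⟨ha, hb⟩ := C.and_lt i a b hg
      rw [C.fr_and hg, C.depth_and hg]
      have h1 := ih a.val (by rw [← hn]; exact ha) a rfl
      have h2 := ih b.val (by rw [← hn]; exact hb) b rfl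
      simp only [MF.depth]
      omega
    | or a b =>
      obtain ⟨ha, hb⟩ := C.or_lt i a b hg
      rw [C.fr_or hg, C.depth_or hg]
      have h1 := ih a.val (by rw [← hn]; exact ha) a rfl
      have h2 := ih b.val (by rw [← hn]; exact hb) b rfl
      simp only [MF.depth]
      omega

/-- the input with the content `z` of the window -/
def inpt (φ : I → Option W) (u : I → Bool) (z : W → Bool) : I → Bool := fun p =>
  match φ p with
  | some w => z w
  | none => u p

lemma fr_eval {D : ℕ} (φ : I → Option W) (u : I → Bool) (v0 : Fin C.s → Bool) (z : W → Bool)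
    (h : ∀ j ∈ C.nots D, ∀ a, C.gate j = Gate.not a → (!(C.fr φ u v0 a).eval z) = v0 j) :
    ∀ (n : ℕ) (i : Fin C.s), i.val = n → C.depth i ≤ D →
      (C.fr φ u v0 i).eval z = C.val (inpt φ u z) i := by
  intro n
  induction n using Nat.strong_induction_on with
  | _ n ih =>
    intro i hn hD
    cases hg : C.gate i with
    | inp p =>
      rw [C.fr_inp hg, C.val_inp hg]
      unfold inpt
      cases φ p <;> simp [MF.eval]
    | const c => rw [C.fr_const hg, C.val_const hg]; rfl
    | not a =>
      have ha := C.not_lt i a hg
      rw [C.fr_not hg, C.val_not hg]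
      have h1 := h i (C.mem_nots.2 ⟨⟨a, hg⟩, hD⟩) a hg
      have h2 := ih a.val (by rw [← hn]; exact ha) a rfl (by rw [C.depth_not hg] at hD; exact hD)
      show v0 i = _
      rw [← h1, h2]
    | and a b =>
      obtain ⟨ha, hb⟩ := C.and_lt i a b hg
      rw [C.depth_and hg] at hD
      rw [C.fr_and hg, C.val_and hg]
      simp only [MF.eval]
      rw [ih a.val (by rw [← hn]; exact ha) a rfl (by omega),
        ih b.val (by rw [← hn]; exact hb) b rfl (by omega)]
    | or a b =>
      obtain ⟨ha, hb⟩ := C.or_lt i a b hg
      rw [C.depth_or hg] at hD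
      rw [C.fr_or hg, C.val_or hg]
      simp only [MF.eval]
      rw [ih a.val (by rw [← hn]; exact ha) a rfl (by omega),
        ih b.val (by rw [← hn]; exact hb) b rfl (by omega)]

lemma fr_eval_same {D : ℕ} (φ : I → Option W) (u : I → Bool) (v0 : Fin C.s → Bool) (z : W → Bool)
    (h : ∀ j ∈ C.nots D, C.val (inpt φ u z) j = v0 j) :
    ∀ (n : ℕ) (i : Fin C.s), i.val = n → C.depth i ≤ D →
      (C.fr φ u v0 i).eval z = C.val (inpt φ u z) i := by
  intro n
  induction n using Nat.strong_induction_on with
  | _ n ih =>
    intro i hn hD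
    cases hg : C.gate i with
    | inp p =>
      rw [C.fr_inp hg, C.val_inp hg]
      unfold inpt
      cases φ p <;> simp [MF.eval]
    | const c => rw [C.fr_const hg, C.val_const hg]; rfl
    | not a =>
      rw [C.fr_not hg]
      show v0 i = _
      rw [h i (C.mem_nots.2 ⟨⟨a, hg⟩, hD⟩)]
    | and a b =>
      obtain ⟨ha, hb⟩ := C.and_lt i a b hg
      rw [C.depth_and hg] at hD
      rw [C.fr_and hg, C.val_and hg]
      simp only [MF.eval]
      rw [ih a.val (by rw [← hn]; exact ha) a rfl (by omega),
        ih b.val (by rw [← hn]; exact hb) b rfl (by omega)]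
    | or a b =>
      obtain ⟨ha, hb⟩ := C.or_lt i a b hg
      rw [C.depth_or hg] at hD
      rw [C.fr_or hg, C.val_or hg]
      simp only [MF.eval]
      rw [ih a.val (by rw [← hn]; exact ha) a rfl (by omega),
        ih b.val (by rw [← hn]; exact hb) b rfl (by omega)]

end Circuit

/-- Balanced conjunctions. -/
lemma conj_list : ∀ (n : ℕ) (l : List (MF W)) (D : ℕ), l.length = n → (∀ f ∈ l, f.depth ≤ D) →
    ∃ G : MF W, G.depth ≤ D + Nat.clog 2 n ∧ ∀ z, G.eval z = true ↔ ∀ f ∈ l, f.eval z = true := by
  intro n
  induction n using Nat.strong_induction_on with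
  | _ n ih =>
    intro l D hl hD
    rcases Nat.lt_or_ge n 2 with hn | hn
    · rcases l with _ | ⟨f, l⟩
      · exact ⟨MF.const true, by simp [MF.depth], by simp [MF.eval]⟩
      · rcases l with _ | ⟨g, l⟩
        · refine ⟨f, (hD f (by simp)).trans (Nat.le_add_right _ _), by simp⟩
        · simp only [List.length_cons] at hl; omega
    · set k := (n + 1) / 2 with hk
      have h1 := ih k (by omega) (l.take k) D (by rw [List.length_take]; omega)
        (fun f hf => hD f (List.mem_of_mem_take hf))
      have h2 := ih (n - k) (by omega) (l.drop k) D (by rw [List.length_drop]; omega)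
        (fun f hf => hD f (List.mem_of_mem_drop hf))
      obtain ⟨G1, d1, e1⟩ := h1
      obtain ⟨G2, d2, e2⟩ := h2
      refine ⟨MF.and G1 G2, ?_, ?_⟩
      · have hc : Nat.clog 2 n = Nat.clog 2 k + 1 := by
          rw [Nat.clog_of_two_le (by norm_num) hn]
          simp only [hk]
          norm_num
        have hc2 : Nat.clog 2 (n - k) ≤ Nat.clog 2 k := Nat.clog_mono_right 2 (by omega)
        simp only [MF.depth]
        omega
      · intro z
        simp only [MF.eval, Bool.and_eq_true]
        rw [e1, e2]
        constructor
        · rintro ⟨a, b⟩ f hf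
          rw [← List.take_append_drop k l, List.mem_append] at hf
          exact hf.elim (a f) (b f)
        · intro h
          exact ⟨fun f hf => h f (List.mem_of_mem_take hf), fun f hf => h f (List.mem_of_mem_drop hf)⟩

/-- The monotone formula of a window: `u` is the base with the window filled with ones. -/
theorem window {t D : ℕ} (C : Circuit I) (ht : C.numNot ≤ t) (hD : C.depth C.out ≤ D)
    (φ : I → Option W) (u : I → Bool) : ∃ G : MF W, G.depth ≤ D + Nat.clog 2 (t + 1) ∧
      (∀ z, ¬ C.Changed (C.depth C.out) (Circuit.inpt φ u z) (Circuit.inpt φ u fun _ => true) →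
        C.eval (Circuit.inpt φ u z) = true → G.eval z = true) ∧
      (∀ z, G.eval z = true → C.eval (Circuit.inpt φ u z) = true) := by
  classical
  set D0 := C.depth C.out with hD0
  set x1 := Circuit.inpt φ u (fun _ => true) with hx1
  set v0 : Fin C.s → Bool := C.val x1 with hv0
  set F := C.fr φ u v0 with hF
  -- the arguments of the NOT gates
  let arg : Fin C.s → Fin C.s := fun j => if h : C.IsNot j then h.choose else j
  have harg : ∀ j, C.IsNot j → C.gate j = Gate.not (arg j) := by
    intro j h
    simp only [arg, dif_pos h]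
    exact h.choose_spec
  set J := (C.nots D0).filter (fun j => v0 j = false) with hJ
  set l : List (MF W) := F C.out :: J.toList.map (fun j => F (arg j)) with hl
  have hlen : l.length ≤ t + 1 := by
    rw [hl, List.length_cons, List.length_map, Finset.length_toList]
    have : J.card ≤ t := ((Finset.card_filter_le _ _).trans (C.card_nots D0)).trans ht
    omega
  have hdepth : ∀ f ∈ l, f.depth ≤ D := by
    intro f hf
    rw [hl, List.mem_cons, List.mem_map] at hf
    rcases hf with rfl | ⟨j, hj, rfl⟩
    · exact (C.fr_depth φ u v0 _ _ rfl).trans hD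
    · rw [Finset.mem_toList, hJ, Finset.mem_filter, C.mem_nots] at hj
      have h1 := C.depth_not (harg j hj.1.1)
      exact ((C.fr_depth φ u v0 _ _ rfl).trans (by rw [← h1]; exact hj.1.2)).trans hD
  obtain ⟨G, hG1, hG2⟩ := conj_list l.length l D rfl hdepth
  refine ⟨G, hG1.trans (by gcongr), ?_, ?_⟩
  · intro z hz hC
    rw [hG2]
    have hsame : ∀ j ∈ C.nots D0, C.val (Circuit.inpt φ u z) j = v0 j := by
      intro j hj
      by_contra hne
      exact hz ⟨j, hj, hne⟩
    have hval := C.fr_eval_same (D := D0) φ u v0 z hsame
    intro f hf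
    rw [hl, List.mem_cons, List.mem_map] at hf
    rcases hf with rfl | ⟨j, hj, rfl⟩
    · rw [hF, hval _ C.out rfl le_rfl]; exact hC
    · rw [Finset.mem_toList, hJ, Finset.mem_filter] at hj
      have h1 := C.depth_not (harg j (C.mem_nots.1 hj.1).1)
      rw [hF, hval _ (arg j) rfl (by rw [← h1]; exact (C.mem_nots.1 hj.1).2)]
      have h2 := hsame j hj.1
      rw [C.val_not (harg j (C.mem_nots.1 hj.1).1), hj.2] at h2
      simpa using h2
  · intro z hz
    rw [hG2] at hz
    have hbase := C.fr_eval_same (D := D0) φ u v0 (fun _ => true) (fun j _ => rfl)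
    have hcond : ∀ j ∈ C.nots D0, ∀ a, C.gate j = Gate.not a → (!(C.fr φ u v0 a).eval z) = v0 j := by
      intro j hj a ha
      have hja : arg j = a := by
        have := harg j ⟨a, ha⟩
        rw [ha] at this
        exact (Gate.not.inj this).symm
      have hda : C.depth a ≤ D0 := by
        rw [← C.depth_not ha]; exact (C.mem_nots.1 hj).2
      cases hv : v0 j with
      | false =>
        have h1 : (F (arg j)).eval z = true := by
          apply hz
          rw [hl, List.mem_cons, List.mem_map]
          right
          exact ⟨j, by rw [Finset.mem_toList, hJ, Finset.mem_filter]; exact ⟨hj, hv⟩, rfl⟩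
        rw [hja] at h1
        rw [← hF, h1]; rfl
      | true =>
        have h1 : (F a).eval (fun _ => true) = false := by
          rw [hF, hbase _ a rfl hda]
          have : v0 j = !(C.val x1 a) := by rw [hv0]; exact C.val_not ha
          rw [hv] at this
          simpa using this.symm
        have h2 : (F a).eval z = false := by
          by_contra hne
          rw [Bool.not_eq_false] at hne
          have := MF.eval_mono (F a) (z := z) (z' := fun _ => true) (fun _ _ => rfl) hne
          rw [h1] at this
          exact absurd this (by simp)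
        rw [← hF, h2]; rfl
    have := C.fr_eval (D := D0) φ u v0 z hcond _ C.out rfl le_rfl
    unfold Circuit.eval
    rw [← this, ← hF]
    exact hz _ (by rw [hl]; simp)

end Pool.Agent.W2helper76.RW
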