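import Pool.Agent.W2helper76.RW.Avg
import Pool.Agent.W2helper76.RW.Frozen

/-!
# The chain of the blocks
-/

set_option autoImplicit false
set_option linter.unusedSectionVars false

open Finset

namespace Pool.Agent.W2helper76.RW

section enc

variable {I W : Type} {m : ℕ}

/-- The input with the given contents of the blocks. -/
def enc (spec : I → Bool ⊕ (Fin m × W)) (z : Fin m → W → Bool) : I → Bool := fun p =>
  match spec p with
  | Sum.inl c => c
  | Sum.inr bw => z bw.1 bw.2

/-- the positions of the block `b` -/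
def phi (spec : I → Bool ⊕ (Fin m × W)) (b : Fin m) : I → Option W := fun p =>
  match spec p with
  | Sum.inl _ => none
  | Sum.inr bw => if bw.1 = b then some bw.2 else none

lemma inpt_enc (spec : I → Bool ⊕ (Fin m × W)) (z : Fin m → W → Bool) (b : Fin m) (z' : W → Bool) :
    Circuit.inpt (phi spec b) (enc spec z) z' = enc spec (Function.update z b z') := by
  funext p
  unfold Circuit.inpt phi enc
  cases h : spec p with
  | inl c => simp
  | inr bw =>
    obtain ⟨b', w⟩ := bw
    by_cases hb : b' = b
    · subst hb; simp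
    · simp [hb]

lemma enc_mono (spec : I → Bool ⊕ (Fin m × W)) (z z' : Fin m → W → Bool)
    (h : ∀ b w, z b w = true → z' b w = true) (p : I) : enc spec z p = true → enc spec z' p = true := by
  unfold enc
  cases h' : spec p with
  | inl c => exact id
  | inr bw => exact h _ _

end enc

/-- The trick of resampling one coordinate. -/
lemma resample {m : ℕ} {G : Type} [Fintype G] (b : Fin m) (h : (Fin m → G) → ℝ) :
    ∑ γ : Fin m → G, ∑ g : G, h (Function.update γ b g) = Fintype.card G * ∑ γ, h γ := by
  classical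
  rw [← Fintype.sum_prod_type (f := fun x : (Fin m → G) × G => h (Function.update x.1 b x.2))]
  have e : ∑ x : (Fin m → G) × G, h (Function.update x.1 b x.2) = ∑ x : (Fin m → G) × G, h x.1 := by
    refine Finset.sum_bij' (fun x _ => (Function.update x.1 b x.2, x.1 b))
      (fun x _ => (Function.update x.1 b x.2, x.1 b)) ?_ ?_ ?_ ?_ ?_
    · intro x _; exact mem_univ _
    · intro x _; exact mem_univ _
    · intro x _; simp
    · intro x _; simp
    · intro x _; rfl
  have e2 : ∑ x : (Fin m → G) × G, h x.1 = Fintype.card G * ∑ γ, h γ := by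
    rw [Fintype.sum_prod_type, Finset.mul_sum]
    apply Finset.sum_congr rfl
    intro γ _
    simp
  rw [← e2, ← e]

variable {ι : Type} [DecidableEq ι] [Fintype ι] {I : Type} {m : ℕ}

/-- The contents before the block `b` is used. -/
def base (b : ℕ) (γ : Fin m → GV ι) : Fin m → WV ι → Bool := fun b' =>
  if b'.val < b then act (γ b') (mX ∅) else fun _ => true

lemma base_update_true (b : Fin m) (γ : Fin m → GV ι) (g : GV ι) :
    Function.update (base b.val γ) b (fun _ => true) = base b.val (Function.update γ b g) := by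
  funext b'
  by_cases h : b' = b
  · subst h; simp [base]
  · simp [Function.update_of_ne h, base]

lemma base_update_act (b : Fin m) (γ : Fin m → GV ι) (g : GV ι) :
    Function.update (base b.val γ) b (act g (mX ∅)) = base (b.val + 1) (Function.update γ b g) := by
  funext b'
  by_cases h : b' = b
  · subst h; simp [base]
  · have h2 : b'.val ≠ b.val := fun h3 => h (Fin.ext h3)
    have h3 : (b'.val < b.val + 1) ↔ (b'.val < b.val) := by omega
    simp only [Function.update_of_ne h, base, h3]

lemma base_anti (b : ℕ) (γ : Fin m → GV ι) (b' : Fin m) (w : WV ι) :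
    base (b + 1) γ b' w = true → base b γ b' w = true := by
  unfold base
  by_cases h : b'.val < b
  · rw [if_pos h, if_pos (by omega)]; exact id
  · rw [if_neg h]; intro _; rfl

open Classical in
/-- few changes of the NOT gates along the chain -/
lemma changes (spec : I → Bool ⊕ (Fin m × WV ι)) (C : Circuit I) (D0 : ℕ) {t : ℕ} (ht : C.numNot ≤ t)
    (γ : Fin m → GV ι) :
    ∑ b : Fin m, (if C.Changed D0 (enc spec (base (b.val + 1) γ)) (enc spec (base b.val γ)) then (1 : ℝ) else 0)
      ≤ 2 ^ t := by
  have step : ∀ b : ℕ, C.wt D0 (enc spec (base (b + 1) γ)) +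
      (if C.Changed D0 (enc spec (base (b + 1) γ)) (enc spec (base b γ)) then 1 else 0) ≤
      C.wt D0 (enc spec (base b γ)) := by
    intro b
    exact C.wt_step (fun p => enc_mono spec _ _ (base_anti b γ) p)
  have tel : ∀ k : ℕ, C.wt D0 (enc spec (base k γ)) + ∑ b ∈ Finset.range k,
      (if C.Changed D0 (enc spec (base (b + 1) γ)) (enc spec (base b γ)) then 1 else 0) ≤
      C.wt D0 (enc spec (base 0 γ)) := by
    intro k
    induction k with
    | zero => simp
    | succ k ih =>
      rw [Finset.sum_range_succ]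
      have := step k
      omega
  have h1 := tel m
  have h2 := C.wt_lt D0 (enc spec (base 0 γ))
  have h3 : (2 : ℕ) ^ (C.nots D0).card ≤ 2 ^ t :=
    Nat.pow_le_pow_right (by norm_num) ((C.card_nots D0).trans ht)
  have h4 : ∑ b ∈ Finset.range m,
      (if C.Changed D0 (enc spec (base (b + 1) γ)) (enc spec (base b γ)) then 1 else 0) ≤ 2 ^ t := by
    omega
  rw [Finset.sum_range] at h4
  exact_mod_cast h4

open Classical in
/-- Circuits with few NOT gates yield monotone formulas with a constant advantage. -/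
theorem chain {t D : ℕ} (hN : 1 ≤ Fintype.card ι) (hm : 0 < m) (spec : I → Bool ⊕ (Fin m × WV ι))
    {Ω : Type} [Fintype Ω] (p : Ω → ℝ) (hp : ∀ ω, 0 ≤ p ω) (hp1 : ∑ ω, p ω = 1) (C : Ω → Circuit I)
    (ht : ∀ ω, (C ω).numNot ≤ t) (hD : ∀ ω, (C ω).depth (C ω).out ≤ D) {θ δ : ℝ}
    (hyes : ∀ z : Fin m → WV ι → Bool, (∀ b, z b = (fun _ => true) ∨ ∃ g, z b = act g (mX ∅)) →
      θ + δ ≤ ∑ ω, p ω * (if (C ω).eval (enc spec z) = true then 1 else 0))
    (hno : ∀ z : Fin m → WV ι → Bool, (∃ b g y, z b = act g (mY y)) →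
      ∑ ω, p ω * (if (C ω).eval (enc spec z) = true then 1 else 0) ≤ θ) :
    ∃ F : MF (WV ι), F.depth ≤ D + Nat.clog 2 (t + 1) ∧
      (δ - 2 ^ t / m) * Fintype.card (GV ι) ≤ acc F (mX ∅) - Eno (fun y => acc F (mY y)) := by
  obtain ⟨q, hq, hq1, hEno⟩ := Eno_weights (ι := ι) hN
  -- the formulas of the windows
  have hwin : ∀ (ω : Ω) (b : Fin m) (γ : Fin m → GV ι), ∃ G : MF (WV ι),
      G.depth ≤ D + Nat.clog 2 (t + 1) ∧
      (∀ g, (if (C ω).eval (enc spec (base (b.val + 1) (Function.update γ b g))) = true then (1 : ℝ) else 0) -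
        (if (C ω).Changed ((C ω).depth (C ω).out) (enc spec (base (b.val + 1) (Function.update γ b g)))
          (enc spec (base b.val (Function.update γ b g))) then 1 else 0) ≤
        if G.eval (act g (mX ∅)) = true then 1 else 0) ∧
      (∀ z, (if G.eval z = true then (1 : ℝ) else 0) ≤
        if (C ω).eval (enc spec (Function.update (base b.val γ) b z)) = true then 1 else 0) := by
    intro ω b γ
    obtain ⟨G, hG1, hG2, hG3⟩ := window (C ω) (ht ω) (hD ω) (phi spec b) (enc spec (base b.val γ))
    refine ⟨G, hG1, ?_, ?_⟩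
    · intro g
      have h := hG2 (act g (mX ∅))
      rw [inpt_enc, inpt_enc, base_update_act, base_update_true b γ g] at h
      by_cases h1 : (C ω).Changed ((C ω).depth (C ω).out)
          (enc spec (base (b.val + 1) (Function.update γ b g)))
          (enc spec (base b.val (Function.update γ b g)))
      · rw [if_pos h1]
        have e1 : (if (C ω).eval (enc spec (base (b.val + 1) (Function.update γ b g))) = true
          then (1 : ℝ) else 0) ≤ 1 := by split_ifs <;> norm_num
        have e2 : (0 : ℝ) ≤ if G.eval (act g (mX ∅)) = true then 1 else 0 := by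
          split_ifs <;> norm_num
        linarith
      · rw [if_neg h1, sub_zero]
        by_cases h2 : (C ω).eval (enc spec (base (b.val + 1) (Function.update γ b g))) = true
        · rw [if_pos h2, if_pos (h h1 h2)]
        · rw [if_neg h2]
          split_ifs <;> norm_num
    · intro z
      have h := hG3 z
      rw [inpt_enc] at h
      by_cases h2 : G.eval z = true
      · rw [if_pos h2, if_pos (h h2)]
      · rw [if_neg h2]
        split_ifs <;> norm_num
  choose G hG1 hG2 hG3 using hwin
  by_contra hcon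
  push Not at hcon
  set Γ : ℝ := (Fintype.card (GV ι) : ℝ) with hΓ
  have hΓ0 : 0 < Γ := by rw [hΓ]; exact_mod_cast Fintype.card_pos
  set M : ℝ := (Fintype.card (Fin m → GV ι) : ℝ) with hM
  have hM0 : 0 < M := by rw [hM]; exact_mod_cast Fintype.card_pos
  have hm0 : (0 : ℝ) < m := by exact_mod_cast hm
  -- every window has a small advantage
  have hbad : ∀ ω b γ, acc (G ω b γ) (mX ∅) - Eno (fun y => acc (G ω b γ) (mY y)) <
      (δ - 2 ^ t / m) * Γ := fun ω b γ => hcon (G ω b γ) (hG1 ω b γ)
  have hacc : ∀ F : MF (WV ι), ∀ z, acc F z = ∑ g : GV ι, (if F.eval (act g z) = true then (1 : ℝ) else 0) := by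
    intro F z
    unfold acc
    rw [Finset.sum_boole]
  -- the sum of the advantages
  set S : ℝ := ∑ ω, p ω * ∑ b : Fin m, ∑ γ : Fin m → GV ι,
    (acc (G ω b γ) (mX ∅) - Eno (fun y => acc (G ω b γ) (mY y))) with hS
  have hlt : S < (δ - 2 ^ t / m) * Γ * (m * M) := by
    have hne : ∃ ω, 0 < p ω := by
      by_contra hne
      push Not at hne
      have : ∑ ω, p ω ≤ 0 := Finset.sum_nonpos (fun ω _ => hne ω)
      linarith
    obtain ⟨ω0, hω0⟩ := hne
    have hin : ∀ ω, ∑ b : Fin m, ∑ γ : Fin m → GV ι,
        (acc (G ω b γ) (mX ∅) - Eno (fun y => acc (G ω b γ) (mY y))) < (δ - 2 ^ t / m) * Γ * (m * M) := by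
      intro ω
      have : ∑ b : Fin m, ∑ γ : Fin m → GV ι, (δ - 2 ^ t / m) * Γ = (δ - 2 ^ t / m) * Γ * (m * M) := by
        rw [Finset.sum_const, Finset.sum_const, Finset.card_univ, Finset.card_univ, nsmul_eq_mul,
          nsmul_eq_mul, Fintype.card_fin, ← hM]
        ring
      rw [← this]
      have : Nonempty (Fin m) := ⟨⟨0, hm⟩⟩
      apply Finset.sum_lt_sum_of_nonempty Finset.univ_nonempty
      intro b _
      apply Finset.sum_lt_sum_of_nonempty Finset.univ_nonempty
      intro γ _
      exact hbad ω b γ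
    calc S < ∑ ω, p ω * ((δ - 2 ^ t / m) * Γ * (m * M)) := by
          apply Finset.sum_lt_sum
          · intro ω _
            exact mul_le_mul_of_nonneg_left (hin ω).le (hp ω)
          · exact ⟨ω0, mem_univ _, mul_lt_mul_of_pos_left (hin ω0) hω0⟩
      _ = _ := by rw [← Finset.sum_mul, hp1, one_mul]
  -- the yes part
  have hY : (θ + δ) * (m * (M * Γ)) - 2 ^ t * (M * Γ) ≤
      ∑ ω, p ω * ∑ b : Fin m, ∑ γ : Fin m → GV ι, acc (G ω b γ) (mX ∅) := by
    have h1 : ∀ ω, ∑ b : Fin m, ∑ γ : Fin m → GV ι, ∑ g : GV ι,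
        (if (C ω).eval (enc spec (base (b.val + 1) (Function.update γ b g))) = true then (1 : ℝ) else 0) -
        2 ^ t * (M * Γ) ≤ ∑ b : Fin m, ∑ γ : Fin m → GV ι, acc (G ω b γ) (mX ∅) := by
      intro ω
      have hch : ∑ b : Fin m, ∑ γ : Fin m → GV ι, ∑ g : GV ι,
          (if (C ω).Changed ((C ω).depth (C ω).out) (enc spec (base (b.val + 1) (Function.update γ b g)))
          (enc spec (base b.val (Function.update γ b g))) then (1 : ℝ) else 0) ≤ 2 ^ t * (M * Γ) := by
        have e1 : ∀ b : Fin m, ∑ γ : Fin m → GV ι, ∑ g : GV ι,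
            (if (C ω).Changed ((C ω).depth (C ω).out) (enc spec (base (b.val + 1) (Function.update γ b g)))
            (enc spec (base b.val (Function.update γ b g))) then (1 : ℝ) else 0) =
            Γ * ∑ γ : Fin m → GV ι, (if (C ω).Changed ((C ω).depth (C ω).out)
              (enc spec (base (b.val + 1) γ)) (enc spec (base b.val γ)) then (1 : ℝ) else 0) :=
          fun b => resample b (fun γ => if (C ω).Changed ((C ω).depth (C ω).out)
              (enc spec (base (b.val + 1) γ)) (enc spec (base b.val γ)) then (1 : ℝ) else 0)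
        rw [Finset.sum_congr rfl (fun b _ => e1 b), ← Finset.mul_sum, Finset.sum_comm]
        have e2 : ∑ γ : Fin m → GV ι, ∑ b : Fin m, (if (C ω).Changed ((C ω).depth (C ω).out)
              (enc spec (base (b.val + 1) γ)) (enc spec (base b.val γ)) then (1 : ℝ) else 0) ≤
            ∑ γ : Fin m → GV ι, (2 : ℝ) ^ t :=
          Finset.sum_le_sum (fun γ _ => changes spec (C ω) _ (ht ω) γ)
        rw [Finset.sum_const, Finset.card_univ, nsmul_eq_mul, ← hM] at e2
        calc _ ≤ Γ * (M * 2 ^ t) := mul_le_mul_of_nonneg_left e2 hΓ0.le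
          _ = _ := by ring
      refine le_trans (sub_le_sub_left hch _) ?_
      rw [← Finset.sum_sub_distrib]
      apply Finset.sum_le_sum
      intro b _
      rw [← Finset.sum_sub_distrib]
      apply Finset.sum_le_sum
      intro γ _
      rw [← Finset.sum_sub_distrib, hacc]
      apply Finset.sum_le_sum
      intro g _
      exact hG2 ω b γ g
    have h2 : (θ + δ) * (m * (M * Γ)) ≤ ∑ ω, p ω * ∑ b : Fin m, ∑ γ : Fin m → GV ι, ∑ g : GV ι,
        (if (C ω).eval (enc spec (base (b.val + 1) (Function.update γ b g))) = true then (1 : ℝ) else 0) := by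
      have e1 : ∑ ω, p ω * ∑ b : Fin m, ∑ γ : Fin m → GV ι, ∑ g : GV ι,
          (if (C ω).eval (enc spec (base (b.val + 1) (Function.update γ b g))) = true then (1 : ℝ) else 0) =
          ∑ b : Fin m, ∑ γ : Fin m → GV ι, ∑ g : GV ι, ∑ ω, p ω *
          (if (C ω).eval (enc spec (base (b.val + 1) (Function.update γ b g))) = true then (1 : ℝ) else 0) := by
        simp only [Finset.mul_sum]
        rw [Finset.sum_comm]
        apply Finset.sum_congr rfl
        intro b _
        rw [Finset.sum_comm]
        apply Finset.sum_congr rfl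
        intro γ _
        rw [Finset.sum_comm]
      rw [e1]
      have e2 : (θ + δ) * (m * (M * Γ)) = ∑ b : Fin m, ∑ γ : Fin m → GV ι, ∑ g : GV ι, (θ + δ) := by
        simp only [Finset.sum_const, Finset.card_univ, nsmul_eq_mul, Fintype.card_fin, ← hM, ← hΓ]
        ring
      rw [e2]
      apply Finset.sum_le_sum
      intro b _
      apply Finset.sum_le_sum
      intro γ _
      apply Finset.sum_le_sum
      intro g _
      apply hyes
      intro b'
      unfold base
      by_cases h : b'.val < b.val + 1
      · rw [if_pos h]; right; exact ⟨_, rfl⟩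
      · rw [if_neg h]; left; rfl
    have h3 : ∑ ω, p ω * (∑ b : Fin m, ∑ γ : Fin m → GV ι, ∑ g : GV ι,
        (if (C ω).eval (enc spec (base (b.val + 1) (Function.update γ b g))) = true then (1 : ℝ) else 0) -
        2 ^ t * (M * Γ)) ≤ ∑ ω, p ω * ∑ b : Fin m, ∑ γ : Fin m → GV ι, acc (G ω b γ) (mX ∅) :=
      Finset.sum_le_sum (fun ω _ => mul_le_mul_of_nonneg_left (h1 ω) (hp ω))
    have h4 : ∑ ω, p ω * (∑ b : Fin m, ∑ γ : Fin m → GV ι, ∑ g : GV ι,
        (if (C ω).eval (enc spec (base (b.val + 1) (Function.update γ b g))) = true then (1 : ℝ) else 0) -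
        2 ^ t * (M * Γ)) = ∑ ω, p ω * ∑ b : Fin m, ∑ γ : Fin m → GV ι, ∑ g : GV ι,
        (if (C ω).eval (enc spec (base (b.val + 1) (Function.update γ b g))) = true then (1 : ℝ) else 0) -
        2 ^ t * (M * Γ) := by
      simp only [mul_sub, Finset.sum_sub_distrib]
      rw [← Finset.sum_mul, hp1, one_mul]
    linarith
  -- the no part
  have hNo : ∑ ω, p ω * ∑ b : Fin m, ∑ γ : Fin m → GV ι, Eno (fun y => acc (G ω b γ) (mY y)) ≤
      θ * (m * (M * Γ)) := by
    have e1 : ∑ ω, p ω * ∑ b : Fin m, ∑ γ : Fin m → GV ι, Eno (fun y => acc (G ω b γ) (mY y)) ≤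
        ∑ ω, p ω * ∑ b : Fin m, ∑ γ : Fin m → GV ι, ∑ y, q y * ∑ g : GV ι,
          (if (C ω).eval (enc spec (Function.update (base b.val γ) b (act g (mY y)))) = true
            then (1 : ℝ) else 0) := by
      apply Finset.sum_le_sum
      intro ω _
      apply mul_le_mul_of_nonneg_left _ (hp ω)
      apply Finset.sum_le_sum
      intro b _
      apply Finset.sum_le_sum
      intro γ _
      rw [hEno]
      apply Finset.sum_le_sum
      intro y _
      apply mul_le_mul_of_nonneg_left _ (hq y)
      rw [hacc]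
      apply Finset.sum_le_sum
      intro g _
      exact hG3 ω b γ (act g (mY y))
    refine e1.trans ?_
    have e2 : ∑ ω, p ω * ∑ b : Fin m, ∑ γ : Fin m → GV ι, ∑ y, q y * ∑ g : GV ι,
          (if (C ω).eval (enc spec (Function.update (base b.val γ) b (act g (mY y)))) = true
            then (1 : ℝ) else 0) =
        ∑ b : Fin m, ∑ γ : Fin m → GV ι, ∑ y, q y * ∑ g : GV ι, ∑ ω, p ω *
          (if (C ω).eval (enc spec (Function.update (base b.val γ) b (act g (mY y)))) = true
            then (1 : ℝ) else 0) := by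
      simp only [Finset.mul_sum]
      rw [Finset.sum_comm]
      apply Finset.sum_congr rfl
      intro b _
      rw [Finset.sum_comm]
      apply Finset.sum_congr rfl
      intro γ _
      rw [Finset.sum_comm]
      apply Finset.sum_congr rfl
      intro y _
      rw [Finset.sum_comm]
      apply Finset.sum_congr rfl
      intro g _
      apply Finset.sum_congr rfl
      intro ω _
      ring
    rw [e2]
    have e3 : θ * (m * (M * Γ)) = ∑ b : Fin m, ∑ γ : Fin m → GV ι, ∑ y, q y * ∑ g : GV ι, θ := by
      simp only [Finset.sum_const, Finset.card_univ, nsmul_eq_mul, Fintype.card_fin, ← hM, ← hΓ,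
        ← Finset.sum_mul, hq1]
      ring
    rw [e3]
    apply Finset.sum_le_sum
    intro b _
    apply Finset.sum_le_sum
    intro γ _
    apply Finset.sum_le_sum
    intro y _
    apply mul_le_mul_of_nonneg_left _ (hq y)
    apply Finset.sum_le_sum
    intro g _
    apply hno
    exact ⟨b, g, y, by simp⟩
  have hSS : S = ∑ ω, p ω * ∑ b : Fin m, ∑ γ : Fin m → GV ι, acc (G ω b γ) (mX ∅) -
      ∑ ω, p ω * ∑ b : Fin m, ∑ γ : Fin m → GV ι, Eno (fun y => acc (G ω b γ) (mY y)) := by
    rw [hS]
    simp only [Finset.sum_sub_distrib, mul_sub]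
  have hfin : (δ - 2 ^ t / m) * Γ * (m * M) = δ * (m * (M * Γ)) - 2 ^ t * (M * Γ) := by
    field_simp
  rw [hSS, hfin] at hlt
  linarith

end Pool.Agent.W2helper76.RW
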