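import Pool.Agent.W2helper76.RW.Chain

/-!
# The chain of the blocks for circuits with one-sided error
-/

set_option autoImplicit false
set_option linter.unusedSectionVars false

open Finset

namespace Pool.Agent.W2helper76.RW

variable {X W I : Type} {m : ℕ}

/-- The contents before the block `b` is used. -/
def base1 (a : X → W → Bool) (b : ℕ) (γ : Fin m → X) : Fin m → W → Bool := fun b' =>
  if b'.val < b then a (γ b') else fun _ => true

lemma base1_update_true (a : X → W → Bool) (b : Fin m) (γ : Fin m → X) (x : X) :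
    Function.update (base1 a b.val γ) b (fun _ => true) = base1 a b.val (Function.update γ b x) := by
  funext b'
  by_cases h : b' = b
  · subst h; simp [base1]
  · simp [Function.update_of_ne h, base1]

lemma base1_update_act (a : X → W → Bool) (b : Fin m) (γ : Fin m → X) (x : X) :
    Function.update (base1 a b.val γ) b (a x) = base1 a (b.val + 1) (Function.update γ b x) := by
  funext b'
  by_cases h : b' = b
  · subst h; simp [base1]
  · have h2 : b'.val ≠ b.val := fun h3 => h (Fin.ext h3)
    have h3 : (b'.val < b.val + 1) ↔ (b'.val < b.val) := by omega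
    simp only [Function.update_of_ne h, base1, h3]

lemma base1_anti (a : X → W → Bool) (b : ℕ) (γ : Fin m → X) (b' : Fin m) (w : W) :
    base1 a (b + 1) γ b' w = true → base1 a b γ b' w = true := by
  unfold base1
  by_cases h : b'.val < b
  · rw [if_pos h, if_pos (by omega)]; exact id
  · rw [if_neg h]; intro _; rfl

open Classical in
/-- few changes of the NOT gates along the chain -/
lemma changes1 (a : X → W → Bool) (spec : I → Bool ⊕ (Fin m × W)) (C : Circuit I) (D0 : ℕ) {t : ℕ}
    (ht : C.numNot ≤ t) (γ : Fin m → X) :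
    ∑ b : Fin m, (if C.Changed D0 (enc spec (base1 a (b.val + 1) γ)) (enc spec (base1 a b.val γ))
      then (1 : ℝ) else 0) ≤ 2 ^ t - 1 := by
  have step : ∀ b : ℕ, C.wt D0 (enc spec (base1 a (b + 1) γ)) +
      (if C.Changed D0 (enc spec (base1 a (b + 1) γ)) (enc spec (base1 a b γ)) then 1 else 0) ≤
      C.wt D0 (enc spec (base1 a b γ)) := by
    intro b
    exact C.wt_step (fun p => enc_mono spec _ _ (base1_anti a b γ) p)
  have tel : ∀ k : ℕ, C.wt D0 (enc spec (base1 a k γ)) + ∑ b ∈ Finset.range k,
      (if C.Changed D0 (enc spec (base1 a (b + 1) γ)) (enc spec (base1 a b γ)) then 1 else 0) ≤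
      C.wt D0 (enc spec (base1 a 0 γ)) := by
    intro k
    induction k with
    | zero => simp
    | succ k ih =>
      rw [Finset.sum_range_succ]
      have := step k
      omega
  have h1 := tel m
  have h2 := C.wt_lt D0 (enc spec (base1 a 0 γ))
  have h3 : (2 : ℕ) ^ (C.nots D0).card ≤ 2 ^ t :=
    Nat.pow_le_pow_right (by norm_num) ((C.card_nots D0).trans ht)
  have h4 : ∑ b ∈ Finset.range m,
      (if C.Changed D0 (enc spec (base1 a (b + 1) γ)) (enc spec (base1 a b γ)) then 1 else 0) + 1 ≤
      2 ^ t := by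
    omega
  rw [Finset.sum_range] at h4
  have h5 : ((∑ b : Fin m,
      (if C.Changed D0 (enc spec (base1 a (b.val + 1) γ)) (enc spec (base1 a b.val γ)) then 1 else 0) + 1 : ℕ) : ℝ)
      ≤ ((2 ^ t : ℕ) : ℝ) := by exact_mod_cast h4
  push_cast at h5
  linarith

open Classical in
/-- Circuits with few NOT gates yield a monotone formula for one block. -/
theorem chain1 [Fintype X] [Nonempty X] {t D : ℕ} (hm : 0 < m) (a : X → W → Bool)
    (spec : I → Bool ⊕ (Fin m × W))
    {Ω : Type} [Fintype Ω] (p : Ω → ℝ) (hp : ∀ ω, 0 ≤ p ω) (hp1 : ∑ ω, p ω = 1) (C : Ω → Circuit I)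
    (ht : ∀ ω, (C ω).numNot ≤ t) (hD : ∀ ω, (C ω).depth (C ω).out ≤ D) {s : ℝ}
    (hyes : ∀ z : Fin m → W → Bool, (∀ b, z b = (fun _ => true) ∨ ∃ x, z b = a x) →
      s ≤ ∑ ω, p ω * (if (C ω).eval (enc spec z) = true then 1 else 0)) :
    ∃ (ω : Ω) (b : Fin m) (γ : Fin m → X) (F : MF W), F.depth ≤ D + Nat.clog 2 (t + 1) ∧
      (s - (2 ^ t - 1) / m) * Fintype.card X ≤ ((univ.filter (fun x => F.eval (a x) = true)).card : ℝ) ∧
      ∀ z, F.eval z = true → (C ω).eval (enc spec (Function.update (base1 a b.val γ) b z)) = true := by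
  -- the formulas of the windows
  have hwin : ∀ (ω : Ω) (b : Fin m) (γ : Fin m → X), ∃ G : MF W,
      G.depth ≤ D + Nat.clog 2 (t + 1) ∧
      (∀ x, (if (C ω).eval (enc spec (base1 a (b.val + 1) (Function.update γ b x))) = true then (1 : ℝ) else 0) -
        (if (C ω).Changed ((C ω).depth (C ω).out) (enc spec (base1 a (b.val + 1) (Function.update γ b x)))
          (enc spec (base1 a b.val (Function.update γ b x))) then 1 else 0) ≤
        if G.eval (a x) = true then 1 else 0) ∧
      (∀ z, G.eval z = true →
        (C ω).eval (enc spec (Function.update (base1 a b.val γ) b z)) = true) := by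
    intro ω b γ
    obtain ⟨G, hG1, hG2, hG3⟩ := window (C ω) (ht ω) (hD ω) (phi spec b) (enc spec (base1 a b.val γ))
    refine ⟨G, hG1, ?_, ?_⟩
    · intro x
      have h := hG2 (a x)
      rw [inpt_enc, inpt_enc, base1_update_act, base1_update_true a b γ x] at h
      by_cases h1 : (C ω).Changed ((C ω).depth (C ω).out)
          (enc spec (base1 a (b.val + 1) (Function.update γ b x)))
          (enc spec (base1 a b.val (Function.update γ b x)))
      · rw [if_pos h1]
        have e1 : (if (C ω).eval (enc spec (base1 a (b.val + 1) (Function.update γ b x))) = true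
          then (1 : ℝ) else 0) ≤ 1 := by split_ifs <;> norm_num
        have e2 : (0 : ℝ) ≤ if G.eval (a x) = true then 1 else 0 := by
          split_ifs <;> norm_num
        linarith
      · rw [if_neg h1, sub_zero]
        by_cases h2 : (C ω).eval (enc spec (base1 a (b.val + 1) (Function.update γ b x))) = true
        · rw [if_pos h2, if_pos (h h1 h2)]
        · rw [if_neg h2]
          split_ifs <;> norm_num
    · intro z hz
      have h := hG3 z hz
      rw [inpt_enc] at h
      exact h
  choose G hG1 hG2 hG3 using hwin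
  by_contra hcon
  push Not at hcon
  set Γ : ℝ := (Fintype.card X : ℝ) with hΓ
  have hΓ0 : 0 < Γ := by rw [hΓ]; exact_mod_cast Fintype.card_pos
  set M : ℝ := (Fintype.card (Fin m → X) : ℝ) with hM
  have hM0 : 0 < M := by rw [hM]; exact_mod_cast Fintype.card_pos
  have hm0 : (0 : ℝ) < m := by exact_mod_cast hm
  -- every window accepts few
  have hbad : ∀ ω b γ, ((univ.filter (fun x => (G ω b γ).eval (a x) = true)).card : ℝ) <
      (s - (2 ^ t - 1) / m) * Γ := by
    intro ω b γ
    by_contra h
    push Not at h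
    obtain ⟨z, hz1, hz2⟩ := hcon ω b γ (G ω b γ) (hG1 ω b γ) h
    exact hz2 (hG3 ω b γ z hz1)
  have hacc : ∀ F : MF W, ((univ.filter (fun x => F.eval (a x) = true)).card : ℝ) =
      ∑ x : X, (if F.eval (a x) = true then (1 : ℝ) else 0) := by
    intro F
    rw [Finset.sum_boole]
  set S : ℝ := ∑ ω, p ω * ∑ b : Fin m, ∑ γ : Fin m → X,
    ((univ.filter (fun x => (G ω b γ).eval (a x) = true)).card : ℝ) with hS
  have hlt : S < (s - (2 ^ t - 1) / m) * Γ * (m * M) := by
    have hne : ∃ ω, 0 < p ω := by
      by_contra hne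
      push Not at hne
      have : ∑ ω, p ω ≤ 0 := Finset.sum_nonpos (fun ω _ => hne ω)
      linarith
    obtain ⟨ω0, hω0⟩ := hne
    have hin : ∀ ω, ∑ b : Fin m, ∑ γ : Fin m → X,
        ((univ.filter (fun x => (G ω b γ).eval (a x) = true)).card : ℝ) <
          (s - (2 ^ t - 1) / m) * Γ * (m * M) := by
      intro ω
      have : ∑ b : Fin m, ∑ γ : Fin m → X, (s - (2 ^ t - 1) / m) * Γ =
          (s - (2 ^ t - 1) / m) * Γ * (m * M) := by
        rw [Finset.sum_const, Finset.sum_const, Finset.card_univ, Finset.card_univ, nsmul_eq_mul,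
          nsmul_eq_mul, Fintype.card_fin, ← hM]
        ring
      rw [← this]
      have : Nonempty (Fin m) := ⟨⟨0, hm⟩⟩
      apply Finset.sum_lt_sum_of_nonempty Finset.univ_nonempty
      intro b _
      apply Finset.sum_lt_sum_of_nonempty Finset.univ_nonempty
      intro γ _
      exact hbad ω b γ
    calc S < ∑ ω, p ω * ((s - (2 ^ t - 1) / m) * Γ * (m * M)) := by
          apply Finset.sum_lt_sum
          · intro ω _
            exact mul_le_mul_of_nonneg_left (hin ω).le (hp ω)
          · exact ⟨ω0, mem_univ _, mul_lt_mul_of_pos_left (hin ω0) hω0⟩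
      _ = _ := by rw [← Finset.sum_mul, hp1, one_mul]
  have hY : s * (m * (M * Γ)) - (2 ^ t - 1) * (M * Γ) ≤ S := by
    have h1 : ∀ ω, ∑ b : Fin m, ∑ γ : Fin m → X, ∑ x : X,
        (if (C ω).eval (enc spec (base1 a (b.val + 1) (Function.update γ b x))) = true then (1 : ℝ) else 0) -
        (2 ^ t - 1) * (M * Γ) ≤ ∑ b : Fin m, ∑ γ : Fin m → X,
          ((univ.filter (fun x => (G ω b γ).eval (a x) = true)).card : ℝ) := by
      intro ω
      have hch : ∑ b : Fin m, ∑ γ : Fin m → X, ∑ x : X,
          (if (C ω).Changed ((C ω).depth (C ω).out) (enc spec (base1 a (b.val + 1) (Function.update γ b x)))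
          (enc spec (base1 a b.val (Function.update γ b x))) then (1 : ℝ) else 0) ≤
          (2 ^ t - 1) * (M * Γ) := by
        have e1 : ∀ b : Fin m, ∑ γ : Fin m → X, ∑ x : X,
            (if (C ω).Changed ((C ω).depth (C ω).out) (enc spec (base1 a (b.val + 1) (Function.update γ b x)))
            (enc spec (base1 a b.val (Function.update γ b x))) then (1 : ℝ) else 0) =
            Γ * ∑ γ : Fin m → X, (if (C ω).Changed ((C ω).depth (C ω).out)
              (enc spec (base1 a (b.val + 1) γ)) (enc spec (base1 a b.val γ)) then (1 : ℝ) else 0) :=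
          fun b => resample b (fun γ => if (C ω).Changed ((C ω).depth (C ω).out)
              (enc spec (base1 a (b.val + 1) γ)) (enc spec (base1 a b.val γ)) then (1 : ℝ) else 0)
        rw [Finset.sum_congr rfl (fun b _ => e1 b), ← Finset.mul_sum, Finset.sum_comm]
        have e2 : ∑ γ : Fin m → X, ∑ b : Fin m, (if (C ω).Changed ((C ω).depth (C ω).out)
              (enc spec (base1 a (b.val + 1) γ)) (enc spec (base1 a b.val γ)) then (1 : ℝ) else 0) ≤
            ∑ γ : Fin m → X, ((2 : ℝ) ^ t - 1) :=
          Finset.sum_le_sum (fun γ _ => changes1 a spec (C ω) _ (ht ω) γ)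
        rw [Finset.sum_const, Finset.card_univ, nsmul_eq_mul, ← hM] at e2
        calc _ ≤ Γ * (M * (2 ^ t - 1)) := mul_le_mul_of_nonneg_left e2 hΓ0.le
          _ = _ := by ring
      refine le_trans (sub_le_sub_left hch _) ?_
      rw [← Finset.sum_sub_distrib]
      apply Finset.sum_le_sum
      intro b _
      rw [← Finset.sum_sub_distrib]
      apply Finset.sum_le_sum
      intro γ _
      rw [← Finset.sum_sub_distrib, hacc]
      apply Finset.sum_le_sum
      intro x _
      exact hG2 ω b γ x
    have h2 : s * (m * (M * Γ)) ≤ ∑ ω, p ω * ∑ b : Fin m, ∑ γ : Fin m → X, ∑ x : X,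
        (if (C ω).eval (enc spec (base1 a (b.val + 1) (Function.update γ b x))) = true then (1 : ℝ) else 0) := by
      have e1 : ∑ ω, p ω * ∑ b : Fin m, ∑ γ : Fin m → X, ∑ x : X,
          (if (C ω).eval (enc spec (base1 a (b.val + 1) (Function.update γ b x))) = true then (1 : ℝ) else 0) =
          ∑ b : Fin m, ∑ γ : Fin m → X, ∑ x : X, ∑ ω, p ω *
          (if (C ω).eval (enc spec (base1 a (b.val + 1) (Function.update γ b x))) = true then (1 : ℝ) else 0) := by
        simp only [Finset.mul_sum]
        rw [Finset.sum_comm]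
        apply Finset.sum_congr rfl
        intro b _
        rw [Finset.sum_comm]
        apply Finset.sum_congr rfl
        intro γ _
        rw [Finset.sum_comm]
      rw [e1]
      have e2 : s * (m * (M * Γ)) = ∑ b : Fin m, ∑ γ : Fin m → X, ∑ x : X, s := by
        simp only [Finset.sum_const, Finset.card_univ, nsmul_eq_mul, Fintype.card_fin, ← hM, ← hΓ]
        ring
      rw [e2]
      apply Finset.sum_le_sum
      intro b _
      apply Finset.sum_le_sum
      intro γ _
      apply Finset.sum_le_sum
      intro x _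
      apply hyes
      intro b'
      unfold base1
      by_cases h : b'.val < b.val + 1
      · rw [if_pos h]; right; exact ⟨_, rfl⟩
      · rw [if_neg h]; left; rfl
    have h3 : ∑ ω, p ω * (∑ b : Fin m, ∑ γ : Fin m → X, ∑ x : X,
        (if (C ω).eval (enc spec (base1 a (b.val + 1) (Function.update γ b x))) = true then (1 : ℝ) else 0) -
        (2 ^ t - 1) * (M * Γ)) ≤ S :=
      Finset.sum_le_sum (fun ω _ => mul_le_mul_of_nonneg_left (h1 ω) (hp ω))
    have h4 : ∑ ω, p ω * (∑ b : Fin m, ∑ γ : Fin m → X, ∑ x : X,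
        (if (C ω).eval (enc spec (base1 a (b.val + 1) (Function.update γ b x))) = true then (1 : ℝ) else 0) -
        (2 ^ t - 1) * (M * Γ)) = ∑ ω, p ω * ∑ b : Fin m, ∑ γ : Fin m → X, ∑ x : X,
        (if (C ω).eval (enc spec (base1 a (b.val + 1) (Function.update γ b x))) = true then (1 : ℝ) else 0) -
        (2 ^ t - 1) * (M * Γ) := by
      simp only [mul_sub, Finset.sum_sub_distrib]
      rw [← Finset.sum_mul, hp1, one_mul]
    linarith
  have hfin : (s - (2 ^ t - 1) / m) * Γ * (m * M) = s * (m * (M * Γ)) - (2 ^ t - 1) * (M * Γ) := by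
    field_simp
  rw [hfin] at hlt
  linarith

end Pool.Agent.W2helper76.RW
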