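import Mathlib

/-!
# Boolean circuits with AND, OR and NOT gates
-/

set_option autoImplicit false

open Finset

namespace Pool.Agent.W2helper76.RW

/-- The kinds of the gates of a circuit with `s` gates and inputs named by `I`: input gates,
constants, negation, conjunction and disjunction of (the values of) other gates. -/
inductive Gate (I : Type) (s : ℕ) : Type
  | inp (p : I) : Gate I s
  | const (c : Bool) : Gate I s
  | not (a : Fin s) : Gate I s
  | and (a b : Fin s) : Gate I s
  | or (a b : Fin s) : Gate I s

/-- A Boolean circuit: gates `0, ..., s - 1`, every gate uses only gates with smaller numbers, the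
value of a gate may be used any number of times. -/
structure Circuit (I : Type) where
  /-- the number of gates -/
  s : ℕ
  /-- the gates -/
  gate : Fin s → Gate I s
  /-- the output gate -/
  out : Fin s
  not_lt : ∀ i a, gate i = Gate.not a → a < i
  and_lt : ∀ i a b, gate i = Gate.and a b → a < i ∧ b < i
  or_lt : ∀ i a b, gate i = Gate.or a b → a < i ∧ b < i

namespace Circuit

variable {I : Type}

/-- The value of the gate `i` on the input `x`. -/
def val (C : Circuit I) (x : I → Bool) (i : Fin C.s) : Bool :=
  match h : C.gate i with
  | Gate.inp p => x p
  | Gate.const c => c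
  | Gate.not a => have := C.not_lt i a h; !(C.val x a)
  | Gate.and a b => have := C.and_lt i a b h; C.val x a && C.val x b
  | Gate.or a b => have := C.or_lt i a b h; C.val x a || C.val x b
termination_by i.val
decreasing_by all_goals first | exact this | exact this.1 | exact this.2

/-- The depth of the gate `i`: the largest number of AND and OR gates on a path which ends in `i`
(NOT gates are not counted). -/
def depth (C : Circuit I) (i : Fin C.s) : ℕ :=
  match h : C.gate i with
  | Gate.inp _ => 0
  | Gate.const _ => 0
  | Gate.not a => have := C.not_lt i a h; C.depth a
  | Gate.and a b => have := C.and_lt i a b h; max (C.depth a) (C.depth b) + 1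
  | Gate.or a b => have := C.or_lt i a b h; max (C.depth a) (C.depth b) + 1
termination_by i.val
decreasing_by all_goals first | exact this | exact this.1 | exact this.2

/-- The value of the circuit. -/
def eval (C : Circuit I) (x : I → Bool) : Bool := C.val x C.out

/-- The gate is a NOT gate. -/
def IsNot (C : Circuit I) (i : Fin C.s) : Prop := ∃ a, C.gate i = Gate.not a

/-- The number of NOT gates. -/
noncomputable def numNot (C : Circuit I) : ℕ := {i : Fin C.s | C.IsNot i}.ncard

variable (C : Circuit I)

lemma val_inp {x : I → Bool} {i : Fin C.s} {p : I} (h : C.gate i = Gate.inp p) :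
    C.val x i = x p := by
  rw [val]; split <;> simp_all

lemma val_const {x : I → Bool} {i : Fin C.s} {c : Bool} (h : C.gate i = Gate.const c) :
    C.val x i = c := by
  rw [val]; split <;> simp_all

lemma val_not {x : I → Bool} {i a : Fin C.s} (h : C.gate i = Gate.not a) :
    C.val x i = !(C.val x a) := by
  rw [val]; split <;> simp_all

lemma val_and {x : I → Bool} {i a b : Fin C.s} (h : C.gate i = Gate.and a b) :
    C.val x i = (C.val x a && C.val x b) := by
  rw [val]; split <;> simp_all

lemma val_or {x : I → Bool} {i a b : Fin C.s} (h : C.gate i = Gate.or a b) :
    C.val x i = (C.val x a || C.val x b) := by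
  rw [val]; split <;> simp_all

lemma depth_not {i a : Fin C.s} (h : C.gate i = Gate.not a) : C.depth i = C.depth a := by
  rw [depth]; split <;> simp_all

lemma depth_and {i a b : Fin C.s} (h : C.gate i = Gate.and a b) :
    C.depth i = max (C.depth a) (C.depth b) + 1 := by
  rw [depth]; split <;> simp_all

lemma depth_or {i a b : Fin C.s} (h : C.gate i = Gate.or a b) :
    C.depth i = max (C.depth a) (C.depth b) + 1 := by
  rw [depth]; split <;> simp_all

end Circuit

end Pool.Agent.W2helper76.RW
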