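import Pool.Agent.W2helper76.RW.Embed

/-!
# The average case bound: conclusion
-/

set_option autoImplicit false
set_option linter.unusedSectionVars false

open Finset

namespace Pool.Agent.W2helper76.RW

variable {ι : Type} [DecidableEq ι] [Fintype ι]

open Classical in
/-- number of relabelings which are accepted -/
noncomputable def acc (F : MF (WV ι)) (z : WV ι → Bool) : ℝ :=
  ((univ.filter (fun g : GV ι => F.eval (act g z) = true)).card : ℝ)

lemma acc_act (F : MF (WV ι)) (h : GV ι) (z : WV ι → Bool) : acc F (act h z) = acc F z := by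
  classical
  unfold acc
  congr 1
  refine Finset.card_bij' (fun g _ => g * h) (fun g _ => g * h⁻¹) ?_ ?_ ?_ ?_
  · intro g hg
    simp only [mem_filter, mem_univ, true_and] at hg ⊢
    rw [act_mul]; exact hg
  · intro g hg
    simp only [mem_filter, mem_univ, true_and] at hg ⊢
    rw [← act_mul, inv_mul_cancel_right]; exact hg
  · intro g _; simp
  · intro g _; simp

lemma acc_mX (F : MF (WV ι)) (x : Finset ι) : acc F (mX x) = acc F (mX ∅) := by
  obtain ⟨g, hg⟩ := mX_eq_act x ∅
  rw [hg, acc_act]

/-- the valid relabelings -/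
def Valid (F : MF (WV ι)) (x y : Finset ι) (g : GV ι) : Prop :=
  F.eval (act g (mX x)) = true ∧ F.eval (act g (mY y)) = false

open Classical in
lemma valid_card (F : MF (WV ι)) (x y : Finset ι) :
    acc F (mX ∅) - acc F (mY y) ≤ ((univ.filter (Valid F x y)).card : ℝ) := by
  rw [← acc_mX F x]
  unfold acc
  have h : (univ.filter (fun g : GV ι => F.eval (act g (mX x)) = true)).card ≤
      (univ.filter (Valid F x y)).card +
        (univ.filter (fun g : GV ι => F.eval (act g (mY y)) = true)).card := by
    refine le_trans (Finset.card_le_card ?_) (Finset.card_union_le _ _)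
    intro g hg
    simp only [mem_filter, mem_univ, true_and, mem_union, Valid] at hg ⊢
    by_cases h : F.eval (act g (mY y)) = true
    · exact Or.inr h
    · exact Or.inl ⟨hg, by simpa using h⟩
  have : ((univ.filter (fun g : GV ι => F.eval (act g (mX x)) = true)).card : ℝ) ≤
      ((univ.filter (Valid F x y)).card : ℝ) +
        ((univ.filter (fun g : GV ι => F.eval (act g (mY y)) = true)).card : ℝ) := by
    exact_mod_cast h
  linarith

lemma valid_lab (F : MF (WV ι)) (x y : Finset ι) (g : GV ι) (h : Valid F x y g) :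
    F.lab (act g (mX x)) (act g (mY y)) = some (mv g e0) ∨
      ∃ i, i ∈ x ∧ i ∈ y ∧ F.lab (act g (mX x)) (act g (mY y)) = some (mv g (ei i)) := by
  obtain ⟨w, hw, h1, h2⟩ := F.lab_spec _ _ h.1 h.2
  set w' : WV ι := (g.1.symm w.1, g.2.symm w.2) with hw'
  have hww : w = mv g w' := by
    rw [hw', mv]
    simp
  rcases untouched x y w' h1 h2 with h3 | ⟨i, hi, hi', h3⟩
  · left; rw [hw, hww, h3]
  · right; exact ⟨i, hi, hi', by rw [hw, hww, h3]⟩

lemma mv_inj (g : GV ι) {w w' : WV ι} (h : mv g w = mv g w') : w = w' := by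
  unfold mv at h
  rw [Prod.mk.injEq] at h
  exact Prod.ext (g.1.injective h.1) (g.2.injective h.2)

open Classical in
/-- By symmetry half of the valid relabelings find the special edge. -/
lemma half (F : MF (WV ι)) (x y : Finset ι) (i : ι) (hx : i ∈ x) (hy : i ∈ y)
    (huniq : ∀ j, j ∈ x → j ∈ y → j = i) :
    (((univ.filter (fun g : GV ι => Valid F x y g ∧
      F.lab (act g (mX x)) (act g (mY y)) = some (mv g e0))).card : ℕ) : ℝ) =
      ((univ.filter (Valid F x y)).card : ℝ) / 2 := by
  set A := univ.filter (fun g : GV ι => Valid F x y g ∧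
      F.lab (act g (mX x)) (act g (mY y)) = some (mv g e0)) with hA
  set B := univ.filter (fun g : GV ι => Valid F x y g ∧
      F.lab (act g (mX x)) (act g (mY y)) = some (mv g (ei i))) with hB
  have hAB : A.card = B.card := by
    symm
    have hv : ∀ g, Valid F x y (g * sw i) ↔ Valid F x y g := by
      intro g
      unfold Valid
      rw [act_mul, act_mul, act_sw_mX i x hx, act_sw_mY i y hy]
    have hss : sw i * sw i = 1 := by
      unfold sw
      ext1
      · exact Equiv.swap_mul_self _ _
      · exact Equiv.swap_mul_self _ _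
    refine Finset.card_bij' (fun g _ => g * sw i) (fun g _ => g * sw i) ?_ ?_ ?_ ?_
    · intro g hg
      simp only [hA, hB, mem_filter, mem_univ, true_and] at hg ⊢
      refine ⟨(hv g).2 hg.1, ?_⟩
      rw [act_mul, act_mul, act_sw_mX i x hx, act_sw_mY i y hy, mv_mul, sw_e0]
      exact hg.2
    · intro g hg
      simp only [hA, hB, mem_filter, mem_univ, true_and] at hg ⊢
      refine ⟨(hv g).2 hg.1, ?_⟩
      have e : mv (sw i) (ei i) = e0 := by
        rw [← sw_e0 i, ← mv_mul, hss]; rfl
      rw [act_mul, act_mul, act_sw_mX i x hx, act_sw_mY i y hy, mv_mul, e]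
      exact hg.2
    · intro g _
      show g * sw i * sw i = g
      rw [mul_assoc, hss, mul_one]
    · intro g _
      show g * sw i * sw i = g
      rw [mul_assoc, hss, mul_one]
  have hdisj : Disjoint A B := by
    rw [Finset.disjoint_left]
    intro g hg hg'
    simp only [hA, hB, mem_filter, mem_univ, true_and] at hg hg'
    have := hg.2.symm.trans hg'.2
    have h2 := mv_inj g (Option.some.inj this)
    simp [e0, ei] at h2
  have hunion : univ.filter (Valid F x y) = A ∪ B := by
    ext g
    simp only [hA, hB, mem_filter, mem_univ, true_and, mem_union]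
    constructor
    · intro h
      rcases valid_lab F x y g h with h1 | ⟨j, hj, hj', h1⟩
      · exact Or.inl ⟨h, h1⟩
      · rw [huniq j hj hj'] at h1
        exact Or.inr ⟨h, h1⟩
    · rintro (h | h)
      · exact h.1
      · exact h.1
  have : (univ.filter (Valid F x y)).card = A.card + A.card := by
    rw [hunion, Finset.card_union_of_disjoint hdisj, ← hAB]
  rw [this]
  push_cast
  ring

omit [Fintype ι] in
lemma cnt_true (Z : Finset ι) : cnt (fun _ => True) Z = 2 ^ Z.card := by
  classical
  rw [cnt_eq]
  simp only [if_true, Finset.sum_const, Finset.card_powerset, nsmul_eq_mul, mul_one]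
  push_cast; rfl

lemma S0_one : S0 (fun _ _ => 1 : Finset ι → Finset ι → ℝ) = 4 ^ Fintype.card ι := by
  have h := S0_rect (ι := ι) (fun _ => True) (fun _ => True)
  have e : rect (fun _ => True) (fun _ => True) = (fun _ _ => 1 : Finset ι → Finset ι → ℝ) := by
    funext x y; simp [rect]
  rw [e] at h
  rw [h]
  have : ∀ Z ∈ (univ : Finset ι).powerset, cnt (fun _ => True) Z * cnt (fun _ => True) (univ \ Z) =
      2 ^ Fintype.card ι := by
    intro Z hZ
    rw [cnt_true, cnt_true, ← pow_add, add_comm, Finset.card_sdiff_add_card_eq_card (Finset.mem_powerset.1 hZ),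
        Finset.card_univ]
  rw [Finset.sum_congr rfl this, Finset.sum_const, Finset.card_powerset, Finset.card_univ,
      nsmul_eq_mul]
  push_cast
  rw [← mul_pow]
  norm_num

lemma T1_one : 4 * T1 (fun _ _ => 1 : Finset ι → Finset ι → ℝ) =
    Fintype.card ι * 4 ^ Fintype.card ι := by
  unfold T1
  simp only [Finset.sum_const, Finset.card_powerset, nsmul_eq_mul, mul_one]
  push_cast
  have : ∀ i : ι, ∑ Z ∈ ((univ : Finset ι).erase i).powerset,
      (2 : ℝ) ^ Z.card * 2 ^ ((univ : Finset ι).erase i \ Z).card = 4 ^ (Fintype.card ι - 1) := by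
    intro i
    have h2 : ∀ Z ∈ ((univ : Finset ι).erase i).powerset,
        (2 : ℝ) ^ Z.card * 2 ^ ((univ : Finset ι).erase i \ Z).card = 2 ^ (Fintype.card ι - 1) := by
      intro Z hZ
      rw [← pow_add, add_comm, Finset.card_sdiff_add_card_eq_card (Finset.mem_powerset.1 hZ),
        Finset.card_erase_of_mem (Finset.mem_univ i), Finset.card_univ]
    rw [Finset.sum_congr rfl h2, Finset.sum_const, Finset.card_powerset,
      Finset.card_erase_of_mem (Finset.mem_univ i), Finset.card_univ, nsmul_eq_mul]
    push_cast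
    rw [← mul_pow]
    norm_num
  rw [Finset.sum_congr rfl (fun i _ => this i), Finset.sum_const, Finset.card_univ, nsmul_eq_mul]
  rcases Nat.eq_zero_or_pos (Fintype.card ι) with h | h
  · simp [h]
  · obtain ⟨k, hk⟩ := Nat.exists_eq_succ_of_ne_zero h.ne'
    rw [hk]
    simp only [Nat.succ_eq_add_one, Nat.add_sub_cancel]
    ring

/-- the normalised average over the pairs with one common element -/
noncomputable def Eno (f : Finset ι → ℝ) : ℝ :=
  4 / (Fintype.card ι : ℝ) * T1 (fun _ y => f y) / 4 ^ Fintype.card ι

/-- The main inequality. -/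
theorem core_ineq (hN : 1 ≤ Fintype.card ι) {c0 τ : ℝ} (hτ : 0 ≤ τ)
    (hrect : ∀ A B : Finset ι → Prop,
      c0 * S0 (rect A B) ≤ 4 / (Fintype.card ι : ℝ) * T1 (rect A B) + τ * 4 ^ Fintype.card ι)
    (F : MF (WV ι)) :
    c0 ≤ 1 - (acc F (mX ∅) - Eno (fun y => acc F (mY y))) / (2 * Fintype.card (GV ι)) +
      (2 ^ F.depth + 2) * τ := by
  classical
  set N : ℝ := (Fintype.card ι : ℝ) with hNdef
  have hN0 : 0 < N := by rw [hNdef]; exact_mod_cast hN
  set P : ℝ := 4 ^ Fintype.card ι with hP
  have hP0 : 0 < P := by positivity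
  set Γ : ℝ := (Fintype.card (GV ι) : ℝ) with hΓ
  have hΓ0 : 0 < Γ := by rw [hΓ]; exact_mod_cast Fintype.card_pos
  -- the indicator of acceptance for one relabeling
  let f1 : GV ι → Finset ι → Finset ι → ℝ := fun g =>
    rect (fun x => F.eval (act g (mX x)) = false) (fun _ => True)
  let f2 : GV ι → Finset ι → Finset ι → ℝ := fun g =>
    rect (fun x => F.eval (act g (mX x)) = true) (fun y => F.eval (act g (mY y)) = true)
  let f3 : GV ι → Finset ι → Finset ι → ℝ := fun g =>
    region (fun x => act g (mX x)) (fun y => act g (mY y)) (mv g e0) (fun _ => True) (fun _ => True) F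
  let a : GV ι → Finset ι → Finset ι → ℝ := fun g x y => f1 g x y + f2 g x y + f3 g x y
  have ha : ∀ g x y, a g x y = 1 - (if Valid F x y g then 1 else 0) +
      (if Valid F x y g ∧ F.lab (act g (mX x)) (act g (mY y)) = some (mv g e0) then 1 else 0) := by
    intro g x y
    show f1 g x y + f2 g x y + f3 g x y = _
    simp only [f1, f2, f3, rect, region, Valid]
    rcases Bool.eq_false_or_eq_true (F.eval (act g (mX x))) with h3 | h3 <;>
      rcases Bool.eq_false_or_eq_true (F.eval (act g (mY y))) with h4 | h4 <;>
      simp [h3, h4]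
  -- corruption for one relabeling
  have hone : ∀ g, c0 * S0 (a g) ≤ 4 / N * T1 (a g) + (2 ^ F.depth + 2) * (τ * P) := by
    intro g
    have e1 := hrect (fun x => F.eval (act g (mX x)) = false) (fun _ => True)
    have e2 := hrect (fun x => F.eval (act g (mX x)) = true) (fun y => F.eval (act g (mY y)) = true)
    have e3 := region_bound (by positivity : 0 ≤ τ * P) hrect (fun x => act g (mX x))
      (fun y => act g (mY y)) (mv g e0) F (fun _ => True) (fun _ => True)
    have s1 : S0 (a g) = S0 (f1 g) + S0 (f2 g) + S0 (f3 g) := by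
      show S0 (fun x y => f1 g x y + f2 g x y + f3 g x y) = _
      rw [S0_add (fun x y => f1 g x y + f2 g x y) (f3 g), S0_add (f1 g) (f2 g)]
    have s2 : T1 (a g) = T1 (f1 g) + T1 (f2 g) + T1 (f3 g) := by
      show T1 (fun x y => f1 g x y + f2 g x y + f3 g x y) = _
      rw [T1_add (fun x y => f1 g x y + f2 g x y) (f3 g), T1_add (f1 g) (f2 g)]
    rw [s1, s2]
    simp only [f1, f2, f3]
    linarith
  -- on disjoint pairs everything is accepted
  have hS0 : ∀ g, S0 (a g) = P := by
    intro g
    rw [hP, ← S0_one]
    unfold S0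
    apply Finset.sum_congr rfl
    intro Z _
    apply Finset.sum_congr rfl
    intro x hx
    apply Finset.sum_congr rfl
    intro y hy
    rw [ha]
    by_cases hv : Valid F x y g
    · rcases valid_lab F x y g hv with h1 | ⟨i, hi, hi', -⟩
      · rw [if_pos hv, if_pos ⟨hv, h1⟩]; ring
      · exfalso
        have h1 := Finset.mem_powerset.1 hx hi
        have h2 := Finset.mem_powerset.1 hy hi'
        simp [h1] at h2
    · rw [if_neg hv, if_neg (fun h => hv h.1)]; ring
  -- the sum over the relabelings on the pairs with one common element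
  have hT1 : ∑ g, T1 (a g) ≤ T1 (fun _ y => Γ - (acc F (mX ∅) - acc F (mY y)) / 2) := by
    have e : ∑ g, T1 (a g) = T1 (fun x y => ∑ g, a g x y) := by
      unfold T1
      rw [Finset.sum_comm]
      apply Finset.sum_congr rfl
      intro i _
      rw [Finset.sum_comm]
      apply Finset.sum_congr rfl
      intro Z _
      rw [Finset.sum_comm]
      apply Finset.sum_congr rfl
      intro x _
      rw [Finset.sum_comm]
    rw [e]
    unfold T1
    apply Finset.sum_le_sum
    intro i _
    apply Finset.sum_le_sum
    intro Z hZ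
    apply Finset.sum_le_sum
    intro x hx
    apply Finset.sum_le_sum
    intro y hy
    have hx' := Finset.mem_powerset.1 hx
    have hy' := Finset.mem_powerset.1 hy
    have hh := half F (insert i x) (insert i y) i (mem_insert_self _ _) (mem_insert_self _ _) (by
      intro j hj hj'
      rw [mem_insert] at hj hj'
      rcases hj with hj | hj
      · exact hj
      · rcases hj' with hj' | hj'
        · exact hj'
        · have h1 := hx' hj
          have h2 := hy' hj'
          rw [mem_sdiff] at h2
          exact absurd h1 h2.2)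
    have hv := valid_card F (insert i x) (insert i y)
    have e2 : ∑ g, a g (insert i x) (insert i y) =
        Γ - ((univ.filter (Valid F (insert i x) (insert i y))).card : ℝ) +
          (((univ.filter (fun g : GV ι => Valid F (insert i x) (insert i y) g ∧
            F.lab (act g (mX (insert i x))) (act g (mY (insert i y))) = some (mv g e0))).card : ℕ) : ℝ) := by
      rw [Finset.sum_congr rfl (fun g _ => ha g (insert i x) (insert i y)), Finset.sum_add_distrib,
        Finset.sum_sub_distrib, Finset.sum_boole, Finset.sum_boole, Finset.sum_const,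
        Finset.card_univ, nsmul_eq_mul, mul_one]
    show ∑ g, a g (insert i x) (insert i y) ≤ Γ - (acc F (mX ∅) - acc F (mY (insert i y))) / 2
    rw [e2, hh]
    linarith
  have hlin : T1 (fun _ y => Γ - (acc F (mX ∅) - acc F (mY y)) / 2) =
      (Γ - acc F (mX ∅) / 2) * T1 (fun _ _ => 1 : Finset ι → Finset ι → ℝ) +
        T1 (fun _ y => acc F (mY y)) / 2 := by
    unfold T1
    rw [Finset.mul_sum, Finset.sum_div, ← Finset.sum_add_distrib]
    apply Finset.sum_congr rfl
    intro i _
    rw [Finset.mul_sum, Finset.sum_div, ← Finset.sum_add_distrib]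
    apply Finset.sum_congr rfl
    intro Z _
    rw [Finset.mul_sum, Finset.sum_div, ← Finset.sum_add_distrib]
    apply Finset.sum_congr rfl
    intro x _
    rw [Finset.mul_sum, Finset.sum_div, ← Finset.sum_add_distrib]
    apply Finset.sum_congr rfl
    intro y _
    ring
  have hsum := Finset.sum_le_sum (fun g (_ : g ∈ (univ : Finset (GV ι))) => hone g)
  simp only [hS0] at hsum
  rw [Finset.sum_add_distrib, Finset.sum_const, Finset.sum_const, Finset.card_univ, nsmul_eq_mul,
    nsmul_eq_mul, ← Finset.mul_sum, ← hΓ] at hsum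
  have h5 : 4 / N * ∑ g, T1 (a g) ≤ 4 / N * ((Γ - acc F (mX ∅) / 2) *
      T1 (fun _ _ => 1 : Finset ι → Finset ι → ℝ) + T1 (fun _ y => acc F (mY y)) / 2) := by
    apply mul_le_mul_of_nonneg_left _ (by positivity)
    rw [← hlin]; exact hT1
  have h6 : 4 / N * T1 (fun _ _ => 1 : Finset ι → Finset ι → ℝ) = P := by
    have := T1_one (ι := ι)
    rw [← hNdef, ← hP] at this
    field_simp
    linarith
  have h7 : 4 / N * T1 (fun _ y => acc F (mY y)) = P * Eno (fun y => acc F (mY y)) := by
    unfold Eno
    rw [← hNdef, ← hP]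
    field_simp
  have h8 : 4 / N * ((Γ - acc F (mX ∅) / 2) *
      T1 (fun _ _ => 1 : Finset ι → Finset ι → ℝ) + T1 (fun _ y => acc F (mY y)) / 2) =
      P * (Γ - (acc F (mX ∅) - Eno (fun y => acc F (mY y))) / 2) := by
    calc _ = (Γ - acc F (mX ∅) / 2) * (4 / N * T1 (fun _ _ => 1 : Finset ι → Finset ι → ℝ)) +
        (4 / N * T1 (fun _ y => acc F (mY y))) / 2 := by ring
      _ = _ := by rw [h6, h7]; ring
  rw [h8] at h5
  have h9 : Γ * P * c0 ≤ Γ * P * (1 - (acc F (mX ∅) - Eno (fun y => acc F (mY y))) / (2 * Γ) +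
      (2 ^ F.depth + 2) * τ) := by
    have : Γ * P * (1 - (acc F (mX ∅) - Eno (fun y => acc F (mY y))) / (2 * Γ) +
      (2 ^ F.depth + 2) * τ) = P * (Γ - (acc F (mX ∅) - Eno (fun y => acc F (mY y))) / 2) +
      Γ * ((2 ^ F.depth + 2) * (τ * P)) := by field_simp
    rw [this]
    linarith
  exact le_of_mul_le_mul_left h9 (by positivity)

end Pool.Agent.W2helper76.RW
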