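import Pool.Agent.W2helper76.RW.Level

/-!
# The corruption bound for unique disjointness, with a constant close to one
-/

set_option autoImplicit false
set_option linter.unusedSectionVars false

open Finset

namespace Pool.Agent.W2helper76.RW

variable {ι : Type} [DecidableEq ι]

/-- unbalanced coordinate -/
def Unb (κ : ℝ) (A : Finset ι → Prop) (Z : Finset ι) (i : ι) : Prop :=
  ¬ (cnt (fun x => A (insert i x)) Z ≤ κ * cnt A Z ∧ cnt A Z ≤ κ * cnt (fun x => A (insert i x)) Z)

open Classical in
lemma unb_count {κ : ℝ} (hκ : 1 < κ) (A : Finset ι → Prop) (Z : Finset ι) (E : ℝ) :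
    ∑ i ∈ Z, (if Unb κ A (Z.erase i) i then cnt A Z else 0) ≤
      2 / ((κ - 1) / (κ + 1)) ^ 2 * (E * cnt A Z + 2 ^ Z.card * Real.exp (-E)) := by
  set β := (κ - 1) / (κ + 1) with hβ
  have hβ0 : 0 < β := div_pos (by linarith) (by linarith)
  rcases (cnt_nonneg A Z).eq_or_lt with h0 | h0
  · rw [← h0]
    simp only [ite_self, Finset.sum_const_zero, mul_zero, zero_add]
    positivity
  have hl := level A Z h0
  set a := cnt A Z with ha
  have h1 : ∑ i ∈ Z, (if Unb κ A (Z.erase i) i then β ^ 2 else 0) ≤ 2 * Real.log (2 ^ Z.card / a) := by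
    refine le_trans (Finset.sum_le_sum ?_) hl
    intro i hi
    split_ifs with h
    · have hins := cnt_insert A (Z.erase i) i (Finset.notMem_erase i Z)
      rw [Finset.insert_erase hi, ← ha] at hins
      have p0 := cnt_nonneg A (Z.erase i)
      have p1 := cnt_nonneg (fun x => A (insert i x)) (Z.erase i)
      unfold Unb at h
      set a0 := cnt A (Z.erase i)
      set a1 := cnt (fun x => A (insert i x)) (Z.erase i)
      have hab : β ≤ |(a1 - a0) / a| := by
        rw [abs_div, abs_of_pos h0, le_div_iff₀ h0, hins, hβ, div_mul_eq_mul_div,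
          div_le_iff₀ (by linarith)]
        by_cases h2 : a1 ≤ κ * a0
        · have h3 : ¬ a0 ≤ κ * a1 := fun h3 => h ⟨h2, h3⟩
          push Not at h3
          have : |a1 - a0| = a0 - a1 := by
            rw [abs_of_nonpos]
            · ring
            · nlinarith
          rw [this]; nlinarith
        · push Not at h2
          have : |a1 - a0| = a1 - a0 := by
            rw [abs_of_nonneg]
            nlinarith
          rw [this]; nlinarith
      calc β ^ 2 ≤ |(a1 - a0) / a| ^ 2 := by gcongr
        _ = ((a1 - a0) / a) ^ 2 := sq_abs _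
    · positivity
  have h2 : Real.log (2 ^ Z.card / a) ≤ E + Real.exp (-E) * 2 ^ Z.card / a - 1 := by
    have hpos : 0 < Real.exp (-E) * (2 ^ Z.card / a) := by positivity
    have := Real.log_le_sub_one_of_pos hpos
    rw [Real.log_mul (by positivity) (by positivity), Real.log_exp] at this
    have e : Real.exp (-E) * (2 ^ Z.card / a) = Real.exp (-E) * 2 ^ Z.card / a := by ring
    linarith
  have h3 : ∑ i ∈ Z, (if Unb κ A (Z.erase i) i then a else 0) =
      a / β ^ 2 * ∑ i ∈ Z, (if Unb κ A (Z.erase i) i then β ^ 2 else 0) := by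
    rw [Finset.mul_sum]
    apply Finset.sum_congr rfl
    intro i _
    split_ifs
    · field_simp
    · simp
  rw [h3]
  calc a / β ^ 2 * ∑ i ∈ Z, (if Unb κ A (Z.erase i) i then β ^ 2 else 0)
      ≤ a / β ^ 2 * (2 * (E + Real.exp (-E) * 2 ^ Z.card / a - 1)) := by
        apply mul_le_mul_of_nonneg_left _ (by positivity)
        linarith
    _ = 2 / β ^ 2 * (E * a + 2 ^ Z.card * Real.exp (-E) - a) := by field_simp
    _ ≤ 2 / β ^ 2 * (E * a + 2 ^ Z.card * Real.exp (-E)) := by
        apply mul_le_mul_of_nonneg_left _ (by positivity)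
        linarith

lemma pointwise {κ : ℝ} (hκ : 1 < κ) {p0 p1 q0 q1 : ℝ} (hp0 : 0 ≤ p0) (hp1 : 0 ≤ p1) (hq0 : 0 ≤ q0)
    (hq1 : 0 ≤ q1) (P Q : Prop) [Decidable P] [Decidable Q] (hP : P ↔ ¬ (p1 ≤ κ * p0 ∧ p0 ≤ κ * p1))
    (hQ : Q ↔ ¬ (q1 ≤ κ * q0 ∧ q0 ≤ κ * q1)) :
    p0 * (q0 + q1) + (p0 + p1) * q0 ≤ 2 * κ * (κ + 1) * (p1 * q1) +
      (2 + κ) * ((if P then (p0 + p1) * q0 else 0) + (if Q then p0 * (q0 + q1) else 0)) := by
  have hA : 0 ≤ p0 * (q0 + q1) := by positivity
  have hB : 0 ≤ (p0 + p1) * q0 := by positivity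
  have hC : 0 ≤ 2 * κ * (κ + 1) * (p1 * q1) := by positivity
  by_cases hx : (p1 ≤ κ * p0 ∧ p0 ≤ κ * p1)
  · by_cases hy : (q1 ≤ κ * q0 ∧ q0 ≤ κ * q1)
    · rw [if_neg (fun h => hP.1 h hx), if_neg (fun h => hQ.1 h hy)]
      have e1 : p0 * (q0 + q1) ≤ (κ * p1) * ((κ + 1) * q1) := by
        apply mul_le_mul hx.2 _ (by positivity) (by positivity)
        linarith [hy.2]
      have e2 : (p0 + p1) * q0 ≤ ((κ + 1) * p1) * (κ * q1) := by
        apply mul_le_mul _ hy.2 (by positivity) (by positivity)
        linarith [hx.2]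
      nlinarith
    · rw [if_neg (fun h => hP.1 h hx), if_pos (hQ.2 hy)]
      have e1 : (p0 + p1) * q0 ≤ (1 + κ) * (p0 * (q0 + q1)) := by
        have : p0 + p1 ≤ (1 + κ) * p0 := by linarith [hx.1]
        calc (p0 + p1) * q0 ≤ ((1 + κ) * p0) * (q0 + q1) := by
              apply mul_le_mul this (by linarith) hq0 (by positivity)
          _ = _ := by ring
      nlinarith
  · by_cases hy : (q1 ≤ κ * q0 ∧ q0 ≤ κ * q1)
    · rw [if_pos (hP.2 hx), if_neg (fun h => hQ.1 h hy)]
      have e1 : p0 * (q0 + q1) ≤ (1 + κ) * ((p0 + p1) * q0) := by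
        have : q0 + q1 ≤ (1 + κ) * q0 := by linarith [hy.1]
        calc p0 * (q0 + q1) ≤ (p0 + p1) * ((1 + κ) * q0) := by
              apply mul_le_mul (by linarith) this (by positivity) (by positivity)
          _ = _ := by ring
      nlinarith
    · rw [if_pos (hP.2 hx), if_pos (hQ.2 hy)]
      nlinarith

variable [Fintype ι]

/-- sum over the disjoint pairs -/
noncomputable def S0 (f : Finset ι → Finset ι → ℝ) : ℝ :=
  ∑ Z ∈ (univ : Finset ι).powerset, ∑ x ∈ Z.powerset, ∑ y ∈ ((univ : Finset ι) \ Z).powerset, f x y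

/-- sum over the pairs with one common element (unnormalised) -/
noncomputable def T1 (f : Finset ι → Finset ι → ℝ) : ℝ :=
  ∑ i : ι, ∑ Z ∈ ((univ : Finset ι).erase i).powerset, ∑ x ∈ Z.powerset,
    ∑ y ∈ ((univ : Finset ι).erase i \ Z).powerset, f (insert i x) (insert i y)

open Classical in
/-- the indicator of a rectangle -/
noncomputable def rect (A B : Finset ι → Prop) : Finset ι → Finset ι → ℝ :=
  fun x y => (if A x then 1 else 0) * (if B y then 1 else 0)

lemma sum_rect (A B : Finset ι → Prop) (Z W : Finset ι) :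
    ∑ x ∈ Z.powerset, ∑ y ∈ W.powerset, rect A B x y = cnt A Z * cnt B W := by
  classical
  rw [cnt_eq, cnt_eq, Finset.sum_mul_sum]
  rfl

lemma S0_rect (A B : Finset ι → Prop) :
    S0 (rect A B) = ∑ Z ∈ (univ : Finset ι).powerset, cnt A Z * cnt B (univ \ Z) := by
  unfold S0
  apply Finset.sum_congr rfl
  intro Z _
  exact sum_rect A B Z _

lemma T1_rect (A B : Finset ι → Prop) :
    T1 (rect A B) = ∑ i : ι, ∑ Z ∈ ((univ : Finset ι).erase i).powerset,
      cnt (fun x => A (insert i x)) Z * cnt (fun x => B (insert i x)) ((univ : Finset ι).erase i \ Z) := by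
  unfold T1
  apply Finset.sum_congr rfl
  intro i _
  apply Finset.sum_congr rfl
  intro Z _
  exact sum_rect (fun x => A (insert i x)) (fun x => B (insert i x)) Z _

/-- Splitting a sum over all sets at a coordinate. -/
lemma sum_split (i : ι) (F : Finset ι → ℝ) :
    ∑ Z ∈ (univ : Finset ι).powerset, F Z =
      ∑ Z ∈ ((univ : Finset ι).erase i).powerset, (F Z + F (insert i Z)) := by
  conv_lhs => rw [← Finset.insert_erase (Finset.mem_univ i)]
  rw [Finset.sum_powerset_insert (Finset.notMem_erase i univ), Finset.sum_add_distrib]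

lemma sdiff_eq1 (i : ι) (Z : Finset ι) :
    (univ : Finset ι) \ insert i Z = univ.erase i \ Z := by
  ext j
  simp only [mem_sdiff, mem_univ, true_and, mem_insert, not_or, mem_erase, and_true]

lemma sdiff_eq2 (i : ι) (Z : Finset ι) (hZ : Z ⊆ univ.erase i) :
    (univ : Finset ι) \ Z = insert i (univ.erase i \ Z) := by
  ext j
  have hi : i ∉ Z := fun h => Finset.notMem_erase i univ (hZ h)
  simp only [mem_sdiff, mem_univ, true_and, mem_insert, mem_erase, and_true]
  constructor
  · intro h
    by_cases hj : j = i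
    · exact Or.inl hj
    · exact Or.inr ⟨hj, h⟩
  · rintro (rfl | h)
    · exact hi
    · exact h.2

open Classical in
/-- The corruption bound. -/
theorem corruption {κ : ℝ} (hκ : 1 < κ) (E : ℝ) (A B : Finset ι → Prop) :
    (Fintype.card ι : ℝ) * S0 (rect A B) ≤ 2 * κ * (κ + 1) * T1 (rect A B) +
      (2 + κ) * (4 / ((κ - 1) / (κ + 1)) ^ 2 *
        (E * S0 (rect A B) + 4 ^ Fintype.card ι * Real.exp (-E))) := by
  set N := Fintype.card ι with hN
  set c := 2 / ((κ - 1) / (κ + 1)) ^ 2 with hc
  have hcpos : 0 ≤ c := by positivity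
  -- the two bad sums
  have powsum : ∑ Z ∈ (univ : Finset ι).powerset, (2 : ℝ) ^ Z.card * 2 ^ (univ \ Z).card = 4 ^ N := by
    have : ∀ Z ∈ (univ : Finset ι).powerset, (2 : ℝ) ^ Z.card * 2 ^ (univ \ Z).card = 2 ^ N := by
      intro Z hZ
      rw [← pow_add, add_comm, Finset.card_sdiff_add_card_eq_card (Finset.mem_powerset.1 hZ),
        Finset.card_univ]
    rw [Finset.sum_congr rfl this, Finset.sum_const, Finset.card_powerset, Finset.card_univ,
      nsmul_eq_mul]
    push_cast
    rw [← mul_pow]
    norm_num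
    exact hN.symm
  have hUx : ∑ i : ι, ∑ Z ∈ ((univ : Finset ι).erase i).powerset,
      (if Unb κ A Z i then cnt A (insert i Z) * cnt B (univ \ insert i Z) else 0) ≤
      c * (E * S0 (rect A B) + 4 ^ N * Real.exp (-E)) := by
    have e1 : ∑ i : ι, ∑ Z ∈ ((univ : Finset ι).erase i).powerset,
        (if Unb κ A Z i then cnt A (insert i Z) * cnt B (univ \ insert i Z) else 0) =
        ∑ Z ∈ (univ : Finset ι).powerset, (∑ i ∈ Z, (if Unb κ A (Z.erase i) i then cnt A Z else 0)) *
          cnt B (univ \ Z) := by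
      have e2 : ∀ i : ι, ∑ Z ∈ ((univ : Finset ι).erase i).powerset,
          (if Unb κ A Z i then cnt A (insert i Z) * cnt B (univ \ insert i Z) else 0) =
          ∑ Z ∈ (univ : Finset ι).powerset,
            (if i ∈ Z then (if Unb κ A (Z.erase i) i then cnt A Z else 0) * cnt B (univ \ Z) else 0) := by
        intro i
        rw [sum_split i]
        apply Finset.sum_congr rfl
        intro Z hZ
        have hi : i ∉ Z := fun h => Finset.notMem_erase i univ (Finset.mem_powerset.1 hZ h)
        rw [if_neg hi, if_pos (Finset.mem_insert_self i Z), Finset.erase_insert hi, zero_add,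
          ite_mul, zero_mul]
      rw [Finset.sum_congr rfl (fun i _ => e2 i), Finset.sum_comm]
      apply Finset.sum_congr rfl
      intro Z _
      rw [Finset.sum_mul, ← Finset.sum_filter]
      apply Finset.sum_congr _ (fun _ _ => rfl)
      ext i; simp
    rw [e1]
    calc ∑ Z ∈ (univ : Finset ι).powerset, (∑ i ∈ Z, (if Unb κ A (Z.erase i) i then cnt A Z else 0)) *
          cnt B (univ \ Z)
        ≤ ∑ Z ∈ (univ : Finset ι).powerset,
          (c * (E * (cnt A Z * cnt B (univ \ Z)) + Real.exp (-E) * (2 ^ Z.card * 2 ^ (univ \ Z).card))) := by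
          apply Finset.sum_le_sum
          intro Z _
          have h1 := unb_count hκ A Z E
          have h2 := cnt_nonneg B (univ \ Z)
          have h3 := cnt_le B (univ \ Z)
          calc _ ≤ (c * (E * cnt A Z + 2 ^ Z.card * Real.exp (-E))) * cnt B (univ \ Z) :=
                mul_le_mul_of_nonneg_right h1 h2
            _ = c * (E * (cnt A Z * cnt B (univ \ Z)) +
                Real.exp (-E) * (2 ^ Z.card * cnt B (univ \ Z))) := by ring
            _ ≤ _ := by gcongr
      _ = c * (E * S0 (rect A B) + 4 ^ N * Real.exp (-E)) := by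
          rw [S0_rect, ← powsum, ← Finset.mul_sum, Finset.sum_add_distrib, ← Finset.mul_sum,
            ← Finset.mul_sum]
          ring
  have hUy : ∑ i : ι, ∑ Z ∈ ((univ : Finset ι).erase i).powerset,
      (if Unb κ B ((univ : Finset ι).erase i \ Z) i then cnt A Z * cnt B (univ \ Z) else 0) ≤
      c * (E * S0 (rect A B) + 4 ^ N * Real.exp (-E)) := by
    have e1 : ∑ i : ι, ∑ Z ∈ ((univ : Finset ι).erase i).powerset,
        (if Unb κ B ((univ : Finset ι).erase i \ Z) i then cnt A Z * cnt B (univ \ Z) else 0) =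
        ∑ Z ∈ (univ : Finset ι).powerset, cnt A Z *
          (∑ i ∈ (univ \ Z), (if Unb κ B ((univ \ Z).erase i) i then cnt B (univ \ Z) else 0)) := by
      have e2 : ∀ i : ι, ∑ Z ∈ ((univ : Finset ι).erase i).powerset,
          (if Unb κ B ((univ : Finset ι).erase i \ Z) i then cnt A Z * cnt B (univ \ Z) else 0) =
          ∑ Z ∈ (univ : Finset ι).powerset,
            (if i ∈ univ \ Z then cnt A Z * (if Unb κ B ((univ \ Z).erase i) i then cnt B (univ \ Z) else 0)
              else 0) := by
        intro i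
        rw [sum_split i]
        apply Finset.sum_congr rfl
        intro Z hZ
        have hi : i ∉ Z := fun h => Finset.notMem_erase i univ (Finset.mem_powerset.1 hZ h)
        have hi2 : i ∉ univ \ insert i Z := by simp
        have hi3 : i ∈ univ \ Z := by simp [hi]
        rw [if_neg hi2, if_pos hi3, add_zero, mul_ite, mul_zero]
        have : (univ \ Z).erase i = univ.erase i \ Z := by
          ext j; simp only [mem_sdiff, mem_univ, true_and, mem_erase, and_true]
        rw [this]
      rw [Finset.sum_congr rfl (fun i _ => e2 i), Finset.sum_comm]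
      apply Finset.sum_congr rfl
      intro Z _
      rw [Finset.mul_sum, ← Finset.sum_filter]
      apply Finset.sum_congr _ (fun _ _ => rfl)
      ext i; simp
    rw [e1]
    calc ∑ Z ∈ (univ : Finset ι).powerset, cnt A Z *
          (∑ i ∈ (univ \ Z), (if Unb κ B ((univ \ Z).erase i) i then cnt B (univ \ Z) else 0))
        ≤ ∑ Z ∈ (univ : Finset ι).powerset,
          (c * (E * (cnt A Z * cnt B (univ \ Z)) + Real.exp (-E) * (2 ^ Z.card * 2 ^ (univ \ Z).card))) := by
          apply Finset.sum_le_sum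
          intro Z _
          have h1 := unb_count hκ B (univ \ Z) E
          have h2 := cnt_nonneg A Z
          have h3 := cnt_le A Z
          calc _ ≤ cnt A Z * (c * (E * cnt B (univ \ Z) + 2 ^ (univ \ Z).card * Real.exp (-E))) :=
                mul_le_mul_of_nonneg_left h1 h2
            _ = c * (E * (cnt A Z * cnt B (univ \ Z)) +
                Real.exp (-E) * (cnt A Z * 2 ^ (univ \ Z).card)) := by ring
            _ ≤ _ := by gcongr
      _ = c * (E * S0 (rect A B) + 4 ^ N * Real.exp (-E)) := by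
          rw [S0_rect, ← powsum, ← Finset.mul_sum, Finset.sum_add_distrib, ← Finset.mul_sum,
            ← Finset.mul_sum]
          ring
  have main : (N : ℝ) * S0 (rect A B) ≤ 2 * κ * (κ + 1) * T1 (rect A B) +
      (2 + κ) * ((∑ i : ι, ∑ Z ∈ ((univ : Finset ι).erase i).powerset,
      (if Unb κ A Z i then cnt A (insert i Z) * cnt B (univ \ insert i Z) else 0)) +
      (∑ i : ι, ∑ Z ∈ ((univ : Finset ι).erase i).powerset,
      (if Unb κ B ((univ : Finset ι).erase i \ Z) i then cnt A Z * cnt B (univ \ Z) else 0))) := by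
    have e1 : (N : ℝ) * S0 (rect A B) = ∑ i : ι, ∑ Z ∈ ((univ : Finset ι).erase i).powerset,
        (cnt A Z * cnt B (univ \ Z) + cnt A (insert i Z) * cnt B (univ \ insert i Z)) := by
      have : ∀ i : ι, ∑ Z ∈ ((univ : Finset ι).erase i).powerset,
        (cnt A Z * cnt B (univ \ Z) + cnt A (insert i Z) * cnt B (univ \ insert i Z)) =
          S0 (rect A B) := by
        intro i
        rw [S0_rect, sum_split i]
      rw [Finset.sum_congr rfl (fun i _ => this i), Finset.sum_const, Finset.card_univ,
        nsmul_eq_mul]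
    rw [e1, T1_rect, Finset.mul_sum, ← Finset.sum_add_distrib, Finset.mul_sum,
      ← Finset.sum_add_distrib]
    apply Finset.sum_le_sum
    intro i _
    rw [← Finset.sum_add_distrib, Finset.mul_sum, Finset.mul_sum, ← Finset.sum_add_distrib]
    apply Finset.sum_le_sum
    intro Z hZ
    have hZ' := Finset.mem_powerset.1 hZ
    have hi : i ∉ Z := fun h => Finset.notMem_erase i univ (hZ' h)
    have hi2 : i ∉ univ.erase i \ Z := by simp
    rw [sdiff_eq1 i Z, sdiff_eq2 i Z hZ', cnt_insert A Z i hi, cnt_insert B _ i hi2]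
    exact pointwise hκ (cnt_nonneg A Z) (cnt_nonneg (fun x => A (insert i x)) Z)
      (cnt_nonneg B (univ.erase i \ Z)) (cnt_nonneg (fun x => B (insert i x)) (univ.erase i \ Z))
      (Unb κ A Z i) (Unb κ B (univ.erase i \ Z) i) Iff.rfl Iff.rfl
  calc (N : ℝ) * S0 (rect A B) ≤ _ := main
    _ ≤ 2 * κ * (κ + 1) * T1 (rect A B) +
      (2 + κ) * (c * (E * S0 (rect A B) + 4 ^ N * Real.exp (-E)) +
        c * (E * S0 (rect A B) + 4 ^ N * Real.exp (-E))) := by
        gcongr
    _ = _ := by rw [hc]; ring

end Pool.Agent.W2helper76.RW
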