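import Pool.Agent.W2helper76.RW.Formula

/-!
# The average case bound for monotone formulas and bipartite perfect matching (after Raz and Wigderson)
-/

set_option autoImplicit false
set_option linter.unusedSectionVars false

open Finset

namespace Pool.Agent.W2helper76.RW

/-- left vertices of a block -/
abbrev LV (ι : Type) := Option ι ⊕ Option ι

/-- right vertices of a block -/
abbrev RV (ι : Type) := Option ι × Bool

/-- pairs of vertices of a block -/
abbrev WV (ι : Type) := LV ι × RV ι

/-- relabelings of a block -/
abbrev GV (ι : Type) := Equiv.Perm (LV ι) × Equiv.Perm (RV ι)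

variable {ι : Type} [DecidableEq ι]

/-- relabeled graph -/
def act (g : GV ι) (z : WV ι → Bool) : WV ι → Bool := fun w => z (g.1.symm w.1, g.2.symm w.2)

/-- relabeled pair -/
def mv (g : GV ι) (w : WV ι) : WV ι := (g.1 w.1, g.2 w.2)

lemma act_mul (g h : GV ι) (z : WV ι → Bool) : act (g * h) z = act g (act h z) := rfl

lemma mv_mul (g h : GV ι) (w : WV ι) : mv (g * h) w = mv g (mv h w) := rfl

/-- which right vertex is used -/
def sel (x : Finset ι) : Option ι → Bool
  | none => true
  | some i => decide (i ∈ x)

/-- the graph with a perfect matching -/
def mX (x : Finset ι) : WV ι → Bool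
  | (Sum.inr _, _) => true
  | (Sum.inl o, r) => decide (r = (o, sel x o))

/-- left vertices in the cover -/
def tL (y : Finset ι) : Option ι → Bool
  | none => false
  | some i => decide (i ∉ y)

/-- right vertices in the cover -/
def tR (y : Finset ι) : RV ι → Bool
  | (some i, false) => decide (i ∈ y)
  | _ => false

/-- the graph with a small vertex cover -/
def mY (y : Finset ι) : WV ι → Bool
  | (Sum.inr _, _) => true
  | (Sum.inl o, r) => tL y o || tR y r

/-- the special edge -/
def e0 : WV ι := (Sum.inl none, (none, true))

/-- the edge of a common element -/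
def ei (i : ι) : WV ι := (Sum.inl (some i), (some i, true))

lemma untouched (x y : Finset ι) (w : WV ι) (h1 : mX x w = true) (h2 : mY y w = false) :
    w = e0 ∨ ∃ i, i ∈ x ∧ i ∈ y ∧ w = ei i := by
  rcases w with ⟨l, r⟩
  rcases l with o | o
  · simp only [mX, decide_eq_true_eq] at h1
    subst h1
    simp only [mY, Bool.or_eq_false_iff] at h2
    rcases o with _ | i
    · left; rfl
    · right
      simp only [tL, decide_eq_false_iff_not, not_not, sel] at h2
      by_cases hx : i ∈ x
      · exact ⟨i, hx, h2.1, by simp [sel, ei, hx]⟩
      · exfalso
        simp only [hx, decide_false, tR, decide_eq_false_iff_not] at h2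
        exact h2.2 h2.1
  · simp only [mY] at h2
    exact absurd h2 (by simp)

/-- the swap of the special edge and of the edge of a common element -/
def sw (i : ι) : GV ι := (Equiv.swap (Sum.inl none) (Sum.inl (some i)), Equiv.swap (none, true) (some i, true))

lemma sw_e0 (i : ι) : mv (sw i) e0 = ei i := by
  simp [mv, sw, e0, ei]

lemma act_sw_mX (i : ι) (x : Finset ι) (hi : i ∈ x) : act (sw i) (mX x) = mX x := by
  funext w
  rcases w with ⟨l, r⟩
  simp only [act, sw, Equiv.symm_swap]
  rcases l with o | o
  · by_cases h1 : o = none
    · subst h1
      rw [Equiv.swap_apply_left]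
      simp only [mX, sel, hi, decide_true]
      congr 1
      rw [eq_iff_iff]
      constructor
      · intro h
        have := congrArg (Equiv.swap ((none : Option ι), true) (some i, true)) h
        rwa [Equiv.swap_apply_self, Equiv.swap_apply_right] at this
      · rintro rfl
        exact Equiv.swap_apply_left _ _
    · by_cases h2 : o = some i
      · subst h2
        rw [Equiv.swap_apply_right]
        simp only [mX, sel, hi, decide_true]
        congr 1
        rw [eq_iff_iff]
        constructor
        · intro h
          have := congrArg (Equiv.swap ((none : Option ι), true) (some i, true)) h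
          rwa [Equiv.swap_apply_self, Equiv.swap_apply_left] at this
        · rintro rfl
          exact Equiv.swap_apply_right _ _
      · rw [Equiv.swap_apply_of_ne_of_ne (by simpa using h1) (by simpa using h2)]
        simp only [mX]
        congr 1
        rw [eq_iff_iff]
        have hfix : Equiv.swap ((none : Option ι), true) (some i, true) (o, sel x o) = (o, sel x o) := by
          apply Equiv.swap_apply_of_ne_of_ne
          · intro h; exact h1 (congrArg Prod.fst h)
          · intro h; exact h2 (congrArg Prod.fst h)
        constructor
        · intro h
          have := congrArg (Equiv.swap ((none : Option ι), true) (some i, true)) h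
          rwa [Equiv.swap_apply_self, hfix] at this
        · rintro rfl
          exact hfix
  · rw [Equiv.swap_apply_of_ne_of_ne (by simp) (by simp)]
    simp only [mX]

lemma act_sw_mY (i : ι) (y : Finset ι) (hi : i ∈ y) : act (sw i) (mY y) = mY y := by
  have hR : ∀ r : RV ι, tR y (Equiv.swap ((none : Option ι), true) (some i, true) r) = tR y r := by
    intro r
    by_cases h1 : r = (none, true)
    · subst h1; rw [Equiv.swap_apply_left]; simp [tR]
    · by_cases h2 : r = (some i, true)
      · subst h2; rw [Equiv.swap_apply_right]; simp [tR]
      · rw [Equiv.swap_apply_of_ne_of_ne h1 h2]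
  funext w
  rcases w with ⟨l, r⟩
  simp only [act, sw, Equiv.symm_swap]
  rcases l with o | o
  · by_cases h1 : o = none
    · subst h1
      rw [Equiv.swap_apply_left]
      simp only [mY, tL, hi, not_true_eq_false, decide_false, Bool.false_or, hR]
    · by_cases h2 : o = some i
      · subst h2
        rw [Equiv.swap_apply_right]
        simp only [mY, tL, hi, not_true_eq_false, decide_false, Bool.false_or, hR]
      · rw [Equiv.swap_apply_of_ne_of_ne (by simpa using h1) (by simpa using h2)]
        simp only [mY, hR]
  · rw [Equiv.swap_apply_of_ne_of_ne (by simp) (by simp)]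
    simp only [mY]

/-- the permutation of the right vertices that changes the matching -/
def flipx (x : Finset ι) : Equiv.Perm (RV ι) where
  toFun := fun r => (r.1, if sel x r.1 = true then r.2 else !r.2)
  invFun := fun r => (r.1, if sel x r.1 = true then r.2 else !r.2)
  left_inv := by
    intro r
    rcases r with ⟨o, b⟩
    by_cases h : sel x o = true <;> simp [h]
  right_inv := by
    intro r
    rcases r with ⟨o, b⟩
    by_cases h : sel x o = true <;> simp [h]

lemma mX_eq_act (x x' : Finset ι) : ∃ g : GV ι, mX x = act g (mX x') := by
  refine ⟨(Equiv.refl _, (flipx x').trans (flipx x)), ?_⟩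
  funext w
  rcases w with ⟨l, r⟩
  rcases l with o | o
  · rcases r with ⟨p, b⟩
    simp only [act, mX, Equiv.refl_symm, Equiv.refl_apply, Equiv.symm_trans_apply]
    congr 1
    have e1 : (flipx x').symm ((flipx x).symm (p, b)) =
        (p, if sel x' p = true then (if sel x p = true then b else !b) else
          !(if sel x p = true then b else !b)) := rfl
    rw [e1, eq_iff_iff, Prod.mk.injEq, Prod.mk.injEq]
    constructor
    · rintro ⟨rfl, rfl⟩
      refine ⟨rfl, ?_⟩
      cases h1 : sel x p <;> cases h2 : sel x' p <;> simp
    · rintro ⟨rfl, h⟩
      refine ⟨rfl, ?_⟩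
      revert h
      cases h1 : sel x p <;> cases h2 : sel x' p <;> simp
  · simp only [act, Equiv.refl_symm, Equiv.refl_apply, mX]

end Pool.Agent.W2helper76.RW
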