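import Mathlib

/-!
# The level one inequality for subsets of the cube, and the corruption bound for unique disjointness
-/

set_option autoImplicit false
set_option linter.unusedSectionVars false

open Finset

namespace Pool.Agent.W2helper76.RW

variable {ι : Type} [DecidableEq ι]

open Classical in
/-- number of subsets of `Z` with the property `A` -/
noncomputable def cnt (A : Finset ι → Prop) (Z : Finset ι) : ℝ :=
  ((Z.powerset.filter (fun x => A x)).card : ℝ)

open Classical in
lemma cnt_eq (A : Finset ι → Prop) (Z : Finset ι) :
    cnt A Z = ∑ x ∈ Z.powerset, if A x then (1 : ℝ) else 0 := by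
  rw [cnt, Finset.card_filter]
  push_cast
  rfl

lemma cnt_nonneg (A : Finset ι → Prop) (Z : Finset ι) : 0 ≤ cnt A Z := Nat.cast_nonneg _

lemma cnt_le (A : Finset ι → Prop) (Z : Finset ι) : cnt A Z ≤ 2 ^ Z.card := by
  classical
  unfold cnt
  calc ((Z.powerset.filter (fun x => A x)).card : ℝ) ≤ (Z.powerset.card : ℝ) := by
        exact_mod_cast Finset.card_le_card (Finset.filter_subset _ _)
    _ = 2 ^ Z.card := by rw [Finset.card_powerset]; push_cast; rfl

lemma cnt_insert (A : Finset ι → Prop) (Z : Finset ι) (i : ι) (hi : i ∉ Z) :
    cnt A (insert i Z) = cnt A Z + cnt (fun x => A (insert i x)) Z := by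
  classical
  rw [cnt_eq, cnt_eq, cnt_eq, Finset.sum_powerset_insert hi]

/-- The level one inequality: the sum of the squares of the biases of a subset of the cube. -/
lemma level (A : Finset ι → Prop) (Z : Finset ι) (hA : 0 < cnt A Z) :
    ∑ i ∈ Z, ((cnt (fun x => A (insert i x)) (Z.erase i) - cnt A (Z.erase i)) / cnt A Z) ^ 2 ≤
      2 * Real.log (2 ^ Z.card / cnt A Z) := by
  classical
  set a := cnt A Z with ha
  set β : ι → ℝ := fun i =>
    (cnt (fun x => A (insert i x)) (Z.erase i) - cnt A (Z.erase i)) / a with hβ
  set s := ∑ i ∈ Z, β i ^ 2 with hs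
  -- the linear function
  set L : Finset ι → ℝ := fun x => ∑ i ∈ Z, (if i ∈ x then β i else - β i) with hL
  have h1 : ∑ x ∈ Z.powerset, Real.exp (L x) ≤ 2 ^ Z.card * Real.exp (s / 2) := by
    have e1 : ∏ i ∈ Z, (Real.exp (β i) + Real.exp (- β i)) = ∑ x ∈ Z.powerset, Real.exp (L x) := by
      rw [Finset.prod_add]
      apply Finset.sum_congr rfl
      intro x hx
      rw [Finset.mem_powerset] at hx
      rw [← Real.exp_sum, ← Real.exp_sum, ← Real.exp_add]
      congr 1
      rw [hL]
      simp only
      rw [← Finset.sum_sdiff hx, add_comm]
      congr 1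
      · apply Finset.sum_congr rfl
        intro i hi
        rw [Finset.mem_sdiff] at hi
        rw [if_neg hi.2]
      · apply Finset.sum_congr rfl
        intro i hi
        rw [if_pos hi]
    rw [← e1]
    calc ∏ i ∈ Z, (Real.exp (β i) + Real.exp (- β i)) ≤ ∏ i ∈ Z, (2 * Real.exp (β i ^ 2 / 2)) := by
          apply Finset.prod_le_prod
          · intro i _; positivity
          · intro i _
            have := Real.cosh_le_exp_half_sq (β i)
            rw [Real.cosh_eq] at this
            linarith
      _ = 2 ^ Z.card * Real.exp (s / 2) := by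
          rw [Finset.prod_mul_distrib, Finset.prod_const, ← Real.exp_sum, hs, Finset.sum_div]
  have h2 : a * Real.exp s ≤ ∑ x ∈ Z.powerset, Real.exp (L x) := by
    have hLA : ∑ x ∈ Z.powerset.filter (fun x => A x), L x = a * s := by
      rw [hL, Finset.sum_comm, hs, Finset.mul_sum]
      apply Finset.sum_congr rfl
      intro i hi
      have e2 : ∑ x ∈ Z.powerset.filter (fun x => A x), (if i ∈ x then β i else - β i) =
          β i * (cnt (fun x => A (insert i x)) (Z.erase i) - cnt A (Z.erase i)) := by
        rw [Finset.sum_filter]
        conv_lhs => rw [← Finset.insert_erase hi]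
        rw [Finset.sum_powerset_insert (Finset.notMem_erase i Z), cnt_eq, cnt_eq, mul_sub,
          Finset.mul_sum, Finset.mul_sum, add_comm, sub_eq_add_neg, ← Finset.sum_neg_distrib]
        congr 1
        · apply Finset.sum_congr rfl
          intro x _
          by_cases hx : A (insert i x)
          · simp [hx]
          · simp [hx]
        · apply Finset.sum_congr rfl
          intro x hx
          have hix : i ∉ x := by
            intro h
            exact Finset.notMem_erase i Z (Finset.mem_powerset.1 hx h)
          by_cases hx' : A x
          · simp [hx', hix]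
          · simp [hx']
      rw [e2]
      have : (cnt (fun x => A (insert i x)) (Z.erase i) - cnt A (Z.erase i)) = a * β i := by
        rw [hβ]; field_simp
      rw [this]; ring
    calc a * Real.exp s
        = ∑ x ∈ Z.powerset.filter (fun x => A x), Real.exp s * (1 + L x - s) := by
          rw [← Finset.mul_sum, Finset.sum_sub_distrib, Finset.sum_add_distrib, hLA]
          simp only [Finset.sum_const, nsmul_eq_mul, mul_one]
          rw [ha, cnt]; ring
      _ ≤ ∑ x ∈ Z.powerset.filter (fun x => A x), Real.exp (L x) := by
          apply Finset.sum_le_sum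
          intro x _
          have := Real.add_one_le_exp (L x - s)
          calc Real.exp s * (1 + L x - s) ≤ Real.exp s * Real.exp (L x - s) := by
                apply mul_le_mul_of_nonneg_left _ (Real.exp_pos _).le
                linarith
            _ = Real.exp (L x) := by rw [← Real.exp_add]; ring_nf
      _ ≤ ∑ x ∈ Z.powerset, Real.exp (L x) := by
          apply Finset.sum_le_sum_of_subset_of_nonneg (Finset.filter_subset _ _)
          intro x _ _
          exact (Real.exp_pos _).le
  have h3 : Real.exp (s / 2) ≤ 2 ^ Z.card / a := by
    rw [le_div_iff₀ hA]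
    have h4 := h2.trans h1
    have h5 : Real.exp s = Real.exp (s / 2) * Real.exp (s / 2) := by rw [← Real.exp_add]; ring_nf
    rw [h5] at h4
    have h6 : 0 < Real.exp (s / 2) := Real.exp_pos _
    nlinarith
  have h4 := (Real.le_log_iff_exp_le (by positivity)).2 h3
  linarith

end Pool.Agent.W2helper76.RW
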