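import Pool.Agent.W2helper76.RW.Chain

/-!
# The depth bound for the blocks
-/

set_option autoImplicit false
set_option linter.unusedSectionVars false

open Finset

namespace Pool.Agent.W2helper76.RW

lemma clog_le (t : ℕ) : ((Nat.clog 2 (t + 1) : ℕ) : ℝ) ≤ Real.logb 2 (t + 2) + 1 := by
  rcases Nat.eq_zero_or_pos t with rfl | ht
  · simp
  · have h1 : Nat.clog 2 (t + 1) ≤ Nat.log 2 (t + 1) + 1 := by
      apply (Nat.clog_le_iff_le_pow (by norm_num)).2
      exact (Nat.lt_pow_succ_log_self (by norm_num) _).le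
    have h2 : ((Nat.log 2 (t + 1) : ℕ) : ℝ) ≤ Real.logb 2 (t + 2) := by
      rw [Real.le_logb_iff_rpow_le (by norm_num) (by positivity), Real.rpow_natCast]
      have : (2 : ℕ) ^ Nat.log 2 (t + 1) ≤ t + 1 := Nat.pow_log_le_self 2 (by omega)
      have h3 : ((2 : ℕ) : ℝ) ^ Nat.log 2 (t + 1) ≤ (t : ℝ) + 1 := by exact_mod_cast this
      push_cast at h3
      linarith
    calc ((Nat.clog 2 (t + 1) : ℕ) : ℝ) ≤ ((Nat.log 2 (t + 1) + 1 : ℕ) : ℝ) := by exact_mod_cast h1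
      _ ≤ _ := by push_cast; linarith

lemma one_le_logb (t : ℕ) : 1 ≤ Real.logb 2 ((t : ℝ) + 2) := by
  rw [Real.le_logb_iff_rpow_le (by norm_num) (by positivity), Real.rpow_one]
  have : (0 : ℝ) ≤ t := Nat.cast_nonneg t
  linarith

open Classical in
/-- Circuits with few NOT gates that decide whether all blocks have perfect matchings have large
depth. -/
theorem blocks_bound {δ : ℝ} (hδ : 0 < δ) : ∃ c : ℝ, 0 < c ∧ ∀ (N m t D : ℕ), 1 ≤ N → 0 < m →
    (2 : ℝ) ^ t / m ≤ δ / 2 → ∀ (I : Type) (spec : I → Bool ⊕ (Fin m × WV (Fin N)))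
    (Ω : Type) [Fintype Ω] (p : Ω → ℝ), (∀ ω, 0 ≤ p ω) → ∑ ω, p ω = 1 → ∀ C : Ω → Circuit I,
    (∀ ω, (C ω).numNot ≤ t) → (∀ ω, (C ω).depth (C ω).out ≤ D) → ∀ θ : ℝ,
    (∀ z : Fin m → WV (Fin N) → Bool, (∀ b, z b = (fun _ => true) ∨ ∃ g, z b = act g (mX ∅)) →
      θ + δ ≤ ∑ ω, p ω * (if (C ω).eval (enc spec z) = true then 1 else 0)) →
    (∀ z : Fin m → WV (Fin N) → Bool, (∃ b g y, z b = act g (mY y)) →
      ∑ ω, p ω * (if (C ω).eval (enc spec z) = true then 1 else 0) ≤ θ) →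
    c * N ≤ D + Real.logb 2 (t + 2) := by
  obtain ⟨ε, c0, hε, hc0, hcore⟩ := core_depth (δ := δ / 2) (by linarith)
  have hden : 0 < 4 * Real.log 2 + |Real.log c0| := by
    have := Real.log_pos (one_lt_two)
    positivity
  refine ⟨ε / (4 * Real.log 2 + |Real.log c0|), by positivity, ?_⟩
  intro N m t D hN hm htm I spec Ω _ p hp hp1 C ht hD θ hyes hno
  have hN' : 1 ≤ Fintype.card (Fin N) := by rw [Fintype.card_fin]; exact hN
  obtain ⟨F, hF1, hF2⟩ := chain hN' hm spec p hp hp1 C ht hD hyes hno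
  have hΓ0 : (0 : ℝ) < Fintype.card (GV (Fin N)) := by exact_mod_cast Fintype.card_pos
  have h1 : δ / 2 * Fintype.card (GV (Fin N)) ≤ acc F (mX ∅) - Eno (fun y => acc F (mY y)) := by
    refine le_trans (mul_le_mul_of_nonneg_right ?_ hΓ0.le) hF2
    linarith
  have h2 := hcore (Fin N) hN' F h1
  rw [Fintype.card_fin] at h2
  set K : ℕ := D + Nat.clog 2 (t + 1) with hK
  have h3 : c0 * Real.exp (ε * N) ≤ 2 ^ (K + 2) := by
    have e1 : (2 : ℝ) ^ F.depth ≤ 2 ^ K := pow_le_pow_right₀ (by norm_num) hF1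
    have e2 : (1 : ℝ) ≤ 2 ^ K := one_le_pow₀ (by norm_num)
    calc c0 * Real.exp (ε * N) ≤ 2 ^ F.depth + 2 := h2
      _ ≤ 2 ^ K + 2 * 2 ^ K := by linarith
      _ ≤ 2 ^ (K + 2) := by
        have e3 : (2 : ℝ) ^ (K + 2) = 4 * 2 ^ K := by rw [pow_succ, pow_succ]; ring
        rw [e3]
        linarith
  have h4 := Real.log_le_log (by positivity) h3
  rw [Real.log_mul hc0.ne' (Real.exp_pos _).ne', Real.log_exp, Real.log_pow] at h4
  set R : ℝ := (D : ℝ) + Real.logb 2 (t + 2) with hR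
  have hR1 : 1 ≤ R := by
    have := one_le_logb t
    have hD0 : (0 : ℝ) ≤ D := Nat.cast_nonneg D
    linarith
  have hKR : ((K + 2 : ℕ) : ℝ) ≤ 4 * R := by
    rw [hK]
    push_cast
    have := clog_le t
    linarith
  have hlog2 : 0 < Real.log 2 := Real.log_pos one_lt_two
  have h5 : ε * N ≤ (4 * Real.log 2 + |Real.log c0|) * R := by
    have e1 : -Real.log c0 ≤ |Real.log c0| := neg_le_abs _
    have e2 : ((K + 2 : ℕ) : ℝ) * Real.log 2 ≤ 4 * R * Real.log 2 :=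
      mul_le_mul_of_nonneg_right hKR hlog2.le
    have e3 : |Real.log c0| ≤ |Real.log c0| * R := le_mul_of_one_le_right (abs_nonneg _) hR1
    nlinarith
  rw [div_mul_eq_mul_div, div_le_iff₀ hden]
  linarith

end Pool.Agent.W2helper76.RW
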