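import Pool.Agent.W2helper76.RW.Chain
import Pool.Agent.W2lead.PMDefs

/-!
# The blocks as graphs
-/

set_option autoImplicit false
set_option linter.unusedSectionVars false

open Finset

namespace Pool.Agent.W2helper76.RW

open Pool.Agent.W2lead.PM (graph HasPM graph_adj hasPM_of_invol)

section hall

variable {ι : Type} [DecidableEq ι] [Fintype ι]

/-- the block has a perfect matching -/
def BPM (z : WV ι → Bool) : Prop := ∃ f : LV ι → RV ι, Function.Injective f ∧ ∀ l, z (l, f l) = true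

lemma card_LV : Fintype.card (LV ι) = 2 * (Fintype.card ι + 1) := by
  simp only [LV, Fintype.card_sum, Fintype.card_option]; ring

lemma card_RV : Fintype.card (RV ι) = 2 * (Fintype.card ι + 1) := by
  simp only [RV, Fintype.card_prod, Fintype.card_option, Fintype.card_bool]; ring

lemma BPM_equiv {z : WV ι → Bool} (h : BPM z) : ∃ σ : LV ι ≃ RV ι, ∀ l, z (l, σ l) = true := by
  obtain ⟨f, hf, hz⟩ := h
  have hb : Function.Bijective f := by
    rw [Fintype.bijective_iff_injective_and_card]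
    exact ⟨hf, by rw [card_LV, card_RV]⟩
  exact ⟨Equiv.ofBijective f hb, fun l => hz l⟩

lemma BPM_act {z : WV ι → Bool} (g : GV ι) : BPM (act g z) ↔ BPM z := by
  constructor
  · rintro ⟨f, hf, hz⟩
    refine ⟨fun l => g.2.symm (f (g.1 l)), ?_, ?_⟩
    · intro l l' h
      exact g.1.injective (hf (g.2.symm.injective h))
    · intro l
      have := hz (g.1 l)
      simpa [act] using this
  · rintro ⟨f, hf, hz⟩
    refine ⟨fun l => g.2 (f (g.1.symm l)), ?_, ?_⟩
    · intro l l' h
      exact g.1.symm.injective (hf (g.2.injective h))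
    · intro l
      have := hz (g.1.symm l)
      simpa [act] using this

lemma BPM_true : BPM (fun _ : WV ι => true) := by
  have h : Fintype.card (LV ι) = Fintype.card (RV ι) := by rw [card_LV, card_RV]
  exact ⟨Fintype.equivOfCardEq h, (Fintype.equivOfCardEq h).injective, fun _ => rfl⟩

lemma BPM_mX (x : Finset ι) : BPM (mX x) := by
  refine ⟨fun l => match l with
    | Sum.inl o => (o, sel x o)
    | Sum.inr o => (o, !(sel x o)), ?_, ?_⟩
  · intro l l' h
    rcases l with o | o <;> rcases l' with o' | o'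
    · simp only [Prod.mk.injEq] at h
      rw [h.1]
    · simp only [Prod.mk.injEq] at h
      obtain ⟨h1, h2⟩ := h
      subst h1
      exact absurd h2 (by simp)
    · simp only [Prod.mk.injEq] at h
      obtain ⟨h1, h2⟩ := h
      subst h1
      exact absurd h2 (by simp)
    · simp only [Prod.mk.injEq] at h
      rw [h.1]
  · intro l
    rcases l with o | o
    · simp [mX]
    · simp [mX]

lemma not_BPM_mY (y : Finset ι) : ¬ BPM (mY y) := by
  rintro ⟨f, hf, hz⟩
  -- the left vertices outside the cover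
  set A : Finset (LV ι) := insert (Sum.inl none) (y.image (fun i => (Sum.inl (some i) : LV ι))) with hA
  set B : Finset (RV ι) := y.image (fun i => ((some i, false) : RV ι)) with hB
  have hAc : A.card = y.card + 1 := by
    rw [hA, Finset.card_insert_of_notMem, Finset.card_image_of_injective]
    · intro a b h
      simpa using h
    · simp
  have hBc : B.card ≤ y.card := Finset.card_image_le
  have hmap : ∀ l ∈ A, f l ∈ B := by
    intro l hl
    have hz' := hz l
    rw [hA, mem_insert, mem_image] at hl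
    have hR : tR y (f l) = true := by
      rcases hl with rfl | ⟨i, hi, rfl⟩
      · simpa [mY, tL] using hz'
      · simpa [mY, tL, hi] using hz'
    rw [hB, mem_image]
    rcases h : f l with ⟨o, c⟩
    rw [h] at hR
    rcases o with _ | i
    · simp [tR] at hR
    · cases c
      · simp only [tR, decide_eq_true_eq] at hR
        exact ⟨i, hR, rfl⟩
      · simp [tR] at hR
  have := Finset.card_le_card_of_injOn f hmap (fun a _ b _ h => hf h)
  omega

end hall

section enc2

variable {ι : Type} [DecidableEq ι] [Fintype ι] {V : Type} {m q : ℕ}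

/-- the place of an edge of a block -/
def pos1 (e : ((Fin m × (LV ι ⊕ RV ι)) ⊕ (Fin q × Bool)) ≃ V) (x : Fin m × WV ι) : Sym2 V :=
  s(e (Sum.inl (x.1, Sum.inl x.2.1)), e (Sum.inl (x.1, Sum.inr x.2.2)))

/-- the place of an additional edge -/
def pos2 (e : ((Fin m × (LV ι ⊕ RV ι)) ⊕ (Fin q × Bool)) ≃ V) (j : Fin q) : Sym2 V :=
  s(e (Sum.inr (j, false)), e (Sum.inr (j, true)))

lemma pos1_inj (e : ((Fin m × (LV ι ⊕ RV ι)) ⊕ (Fin q × Bool)) ≃ V) : Function.Injective (pos1 e) := by
  rintro ⟨b, l, r⟩ ⟨b', l', r'⟩ h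
  simp only [pos1, Sym2.eq_iff, EmbeddingLike.apply_eq_iff_eq, Sum.inl.injEq, Prod.mk.injEq,
    Sum.inr.injEq, reduceCtorEq, and_false, or_false] at h
  obtain ⟨⟨h1, h2⟩, _, h3⟩ := h
  rw [h1, h2, h3]

lemma pos1_ne_pos2 (e : ((Fin m × (LV ι ⊕ RV ι)) ⊕ (Fin q × Bool)) ≃ V) (x : Fin m × WV ι) (j : Fin q) :
    pos1 e x ≠ pos2 e j := by
  intro h
  simp [pos1, pos2] at h

open Classical in
/-- the meaning of the bits -/
noncomputable def gspec (e : ((Fin m × (LV ι ⊕ RV ι)) ⊕ (Fin q × Bool)) ≃ V) (p : Sym2 V) :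
    Bool ⊕ (Fin m × WV ι) :=
  if h : ∃ x, pos1 e x = p then Sum.inr h.choose
  else if ∃ j, pos2 e j = p then Sum.inl true else Sum.inl false

lemma enc_pos1 (e : ((Fin m × (LV ι ⊕ RV ι)) ⊕ (Fin q × Bool)) ≃ V) (z : Fin m → WV ι → Bool)
    (x : Fin m × WV ι) : enc (gspec e) z (pos1 e x) = z x.1 x.2 := by
  classical
  have h : ∃ x', pos1 e x' = pos1 e x := ⟨x, rfl⟩
  have h2 : h.choose = x := pos1_inj e h.choose_spec
  unfold enc gspec
  rw [dif_pos h]
  simp only [h2]

lemma enc_pos2 (e : ((Fin m × (LV ι ⊕ RV ι)) ⊕ (Fin q × Bool)) ≃ V) (z : Fin m → WV ι → Bool)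
    (j : Fin q) : enc (gspec e) z (pos2 e j) = true := by
  classical
  have h : ¬ ∃ x', pos1 e x' = pos2 e j := by
    rintro ⟨x, hx⟩
    exact pos1_ne_pos2 e x j hx
  unfold enc gspec
  rw [dif_neg h, if_pos ⟨j, rfl⟩]

lemma enc_true (e : ((Fin m × (LV ι ⊕ RV ι)) ⊕ (Fin q × Bool)) ≃ V) (z : Fin m → WV ι → Bool)
    (p : Sym2 V) (h : enc (gspec e) z p = true) : (∃ x, pos1 e x = p) ∨ ∃ j, pos2 e j = p := by
  classical
  by_cases h1 : ∃ x', pos1 e x' = p
  · exact Or.inl h1
  · by_cases h2 : ∃ j, pos2 e j = p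
    · exact Or.inr h2
    · exfalso
      unfold enc gspec at h
      rw [dif_neg h1, if_neg h2] at h
      simp at h

/-- If all blocks have perfect matchings, then so has the graph. -/
lemma hasPM_enc (e : ((Fin m × (LV ι ⊕ RV ι)) ⊕ (Fin q × Bool)) ≃ V) (z : Fin m → WV ι → Bool)
    (h : ∀ b, BPM (z b)) : HasPM (enc (gspec e) z) := by
  have h' := fun b => BPM_equiv (h b)
  choose σ hσ using h'
  let f0 : ((Fin m × (LV ι ⊕ RV ι)) ⊕ (Fin q × Bool)) → ((Fin m × (LV ι ⊕ RV ι)) ⊕ (Fin q × Bool)) :=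
    fun v => match v with
      | Sum.inl (b, Sum.inl l) => Sum.inl (b, Sum.inr (σ b l))
      | Sum.inl (b, Sum.inr r) => Sum.inl (b, Sum.inl ((σ b).symm r))
      | Sum.inr (j, c) => Sum.inr (j, !c)
  refine hasPM_of_invol (fun v => e (f0 (e.symm v))) ?_ ?_
  · intro v
    obtain ⟨v', rfl⟩ := e.surjective v
    simp only [Equiv.symm_apply_apply, EmbeddingLike.apply_eq_iff_eq]
    rcases v' with ⟨b, l | r⟩ | ⟨j, c⟩ <;> simp [f0]
  · intro v
    obtain ⟨v', rfl⟩ := e.surjective v
    rw [graph_adj]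
    simp only [Equiv.symm_apply_apply, ne_eq, EmbeddingLike.apply_eq_iff_eq]
    rcases v' with ⟨b, l | r⟩ | ⟨j, c⟩
    · refine ⟨?_, by simp [f0]⟩
      have := enc_pos1 e z (b, (l, σ b l))
      rw [hσ] at this
      exact this
    · refine ⟨?_, by simp [f0]⟩
      have := enc_pos1 e z (b, ((σ b).symm r, σ b ((σ b).symm r)))
      rw [hσ] at this
      rw [Equiv.apply_symm_apply] at this
      rw [Sym2.eq_swap]
      exact this
    · refine ⟨?_, by simp [f0]⟩
      have := enc_pos2 e z j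
      cases c
      · exact this
      · rw [Sym2.eq_swap]; exact this

/-- If the graph has a perfect matching, then so have all blocks. -/
lemma of_hasPM_enc (e : ((Fin m × (LV ι ⊕ RV ι)) ⊕ (Fin q × Bool)) ≃ V) (z : Fin m → WV ι → Bool)
    (h : HasPM (enc (gspec e) z)) (b : Fin m) : BPM (z b) := by
  obtain ⟨M, hM⟩ := h
  have key : ∀ l : LV ι, ∃ r : RV ι, M.Adj (e (Sum.inl (b, Sum.inl l))) (e (Sum.inl (b, Sum.inr r))) ∧
      z b (l, r) = true := by
    intro l
    obtain ⟨w, hw, _⟩ := hM.1 (hM.2 (e (Sum.inl (b, Sum.inl l))))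
    have hadj := M.adj_sub hw
    rw [graph_adj] at hadj
    rcases enc_true e z _ hadj.1 with ⟨⟨b', l', r'⟩, hx⟩ | ⟨j, hj⟩
    · have hval := enc_pos1 e z (b', (l', r'))
      rw [hx, hadj.1] at hval
      simp only [pos1, Sym2.eq_iff, EmbeddingLike.apply_eq_iff_eq, Sum.inl.injEq, Prod.mk.injEq,
        reduceCtorEq, and_false, or_false] at hx
      obtain ⟨⟨h1, h2⟩, h3⟩ := hx
      subst h1
      subst h2
      refine ⟨r', ?_, hval.symm⟩
      rw [h3]
      exact hw
    · simp [pos2] at hj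
  choose f hf hz using key
  refine ⟨f, ?_, hz⟩
  intro l l' hll
  have h1 := hf l
  have h2 := hf l'
  rw [hll] at h1
  obtain ⟨w, _, hu⟩ := hM.1 (hM.2 (e (Sum.inl (b, Sum.inr (f l')))))
  have e1 := hu _ h1.symm
  have e2 := hu _ h2.symm
  have e3 := e1.trans e2.symm
  simpa using e3

end enc2

end Pool.Agent.W2helper76.RW
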