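import Pool.Agent.W2helper76.RW.Num
import Pool.Agent.W2helper76.RW.PMEnc

/-!
# Perfect matching and circuits with few NOT gates
-/

set_option autoImplicit false
set_option linter.unusedSectionVars false

open Finset

namespace Pool.Agent.W2helper76.RW

open Pool.Agent.W2lead.PM (graph HasPM graph_adj hasPM_of_invol)

open Classical in
/-- The probability that a random circuit accepts `x` (the circuit `C ω` is chosen with probability
`p ω`). -/
noncomputable def accProb {I Ω : Type} [Fintype Ω] (p : Ω → ℝ) (C : Ω → Circuit I) (x : I → Bool) : ℝ :=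
  ∑ ω, if (C ω).eval x = true then p ω else 0

/-- All edges of the graph join the first `n` vertices with the last `n` vertices. -/
def Bipartite {n : ℕ} (x : Sym2 (Fin n ⊕ Fin n) → Bool) : Prop :=
  ∀ u v, x s(u, v) = true → u.isLeft ≠ v.isLeft

/-- The random circuit distinguishes with the gap `δ` the bipartite graphs with `n` vertices on either
side that have a perfect matching from those that do not have one: for some threshold `θ` every graph
with a perfect matching is accepted with probability at least `θ + δ`, every other one with probability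
at most `θ`. -/
def DecidesPM {n : ℕ} (δ : ℝ) {Ω : Type} [Fintype Ω] (p : Ω → ℝ)
    (C : Ω → Circuit (Sym2 (Fin n ⊕ Fin n))) : Prop :=
  (∀ ω, 0 ≤ p ω) ∧ ∑ ω, p ω = 1 ∧ ∃ θ : ℝ,
    (∀ x, Bipartite x → HasPM x → θ + δ ≤ accProb p C x) ∧
    (∀ x, Bipartite x → ¬ HasPM x → accProb p C x ≤ θ)

section equiv

variable {N m q n : ℕ}

/-- the placement of the blocks -/
noncomputable def placeFun (e1 : ((Fin m × LV (Fin N)) ⊕ Fin q) ≃ Fin n)
    (e2 : ((Fin m × RV (Fin N)) ⊕ Fin q) ≃ Fin n) :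
    ((Fin m × (LV (Fin N) ⊕ RV (Fin N))) ⊕ (Fin q × Bool)) → Fin n ⊕ Fin n
  | Sum.inl (b, Sum.inl l) => Sum.inl (e1 (Sum.inl (b, l)))
  | Sum.inl (b, Sum.inr r) => Sum.inr (e2 (Sum.inl (b, r)))
  | Sum.inr (j, false) => Sum.inl (e1 (Sum.inr j))
  | Sum.inr (j, true) => Sum.inr (e2 (Sum.inr j))

lemma placeFun_inj (e1 : ((Fin m × LV (Fin N)) ⊕ Fin q) ≃ Fin n)
    (e2 : ((Fin m × RV (Fin N)) ⊕ Fin q) ≃ Fin n) : Function.Injective (placeFun e1 e2) := by
  intro x y h
  rcases x with ⟨b, l | r⟩ | ⟨j, _ | _⟩ <;> rcases y with ⟨b', l' | r'⟩ | ⟨j', _ | _⟩ <;>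
    simp [placeFun] at h ⊢ <;> exact h

lemma exists_place (h : 2 * (N + 1) * m + q = n) :
    ∃ e : ((Fin m × (LV (Fin N) ⊕ RV (Fin N))) ⊕ (Fin q × Bool)) ≃ (Fin n ⊕ Fin n),
      (∀ b l, (e (Sum.inl (b, Sum.inl l))).isLeft = true) ∧
      (∀ b r, (e (Sum.inl (b, Sum.inr r))).isLeft = false) ∧
      (∀ j, (e (Sum.inr (j, false))).isLeft = true) ∧ (∀ j, (e (Sum.inr (j, true))).isLeft = false) := by
  have hL : Fintype.card (LV (Fin N)) = 2 * (N + 1) := by rw [card_LV, Fintype.card_fin]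
  have hR : Fintype.card (RV (Fin N)) = 2 * (N + 1) := by rw [card_RV, Fintype.card_fin]
  have c1 : Fintype.card ((Fin m × LV (Fin N)) ⊕ Fin q) = Fintype.card (Fin n) := by
    rw [Fintype.card_sum, Fintype.card_prod, hL, Fintype.card_fin, Fintype.card_fin, Fintype.card_fin, ← h]
    ring
  have c2 : Fintype.card ((Fin m × RV (Fin N)) ⊕ Fin q) = Fintype.card (Fin n) := by
    rw [Fintype.card_sum, Fintype.card_prod, hR, Fintype.card_fin, Fintype.card_fin, Fintype.card_fin, ← h]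
    ring
  have e1 := Fintype.equivOfCardEq c1
  have e2 := Fintype.equivOfCardEq c2
  have hb : Function.Bijective (placeFun e1 e2) := by
    rw [Fintype.bijective_iff_injective_and_card]
    refine ⟨placeFun_inj e1 e2, ?_⟩
    rw [Fintype.card_sum, Fintype.card_prod, Fintype.card_sum, hL, hR, Fintype.card_prod,
      Fintype.card_bool, Fintype.card_fin, Fintype.card_fin, Fintype.card_sum, Fintype.card_fin, ← h]
    ring
  exact ⟨Equiv.ofBijective _ hb, fun b l => rfl, fun b r => rfl, fun j => rfl, fun j => rfl⟩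

lemma bip_enc (e : ((Fin m × (LV (Fin N) ⊕ RV (Fin N))) ⊕ (Fin q × Bool)) ≃ (Fin n ⊕ Fin n))
    (h1 : ∀ b l, (e (Sum.inl (b, Sum.inl l))).isLeft = true)
    (h2 : ∀ b r, (e (Sum.inl (b, Sum.inr r))).isLeft = false)
    (h3 : ∀ j, (e (Sum.inr (j, false))).isLeft = true) (h4 : ∀ j, (e (Sum.inr (j, true))).isLeft = false)
    (z : Fin m → WV (Fin N) → Bool) : Bipartite (enc (gspec e) z) := by
  intro u v huv
  rcases enc_true e z _ huv with ⟨⟨b, l, r⟩, hx⟩ | ⟨j, hj⟩
  · simp only [pos1, Sym2.eq_iff] at hx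
    rcases hx with ⟨rfl, rfl⟩ | ⟨rfl, rfl⟩
    · rw [h1, h2]; simp
    · rw [h1, h2]; simp
  · simp only [pos2, Sym2.eq_iff] at hj
    rcases hj with ⟨rfl, rfl⟩ | ⟨rfl, rfl⟩
    · rw [h3, h4]; simp
    · rw [h3, h4]; simp

end equiv

/-- The main bound. -/
theorem pm_bound {δ : ℝ} (hδ : 0 < δ) : ∃ c : ℝ, 0 < c ∧ ∀ (n t D : ℕ)
    (Ω : Type) [Fintype Ω] (p : Ω → ℝ) (C : Ω → Circuit (Sym2 (Fin n ⊕ Fin n))),
    DecidesPM δ p C → (∀ ω, (C ω).numNot ≤ t) → (∀ ω, (C ω).depth (C ω).out ≤ D) →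
    c * n / 2 ^ t ≤ D + Real.logb 2 (t + 2) := by
  classical
  obtain ⟨c1, hc1, hB⟩ := blocks_bound hδ
  set A : ℝ := 2 / δ + 1 with hA
  have hA0 : 0 < A := by positivity
  refine ⟨min (c1 / (4 * A)) (1 / (8 * A)), lt_min (by positivity) (by positivity), ?_⟩
  intro n t D Ω _ p C hdec ht hD
  obtain ⟨hp, hp1, θ, hyes, hno⟩ := hdec
  have hT : (0 : ℝ) < 2 ^ t := by positivity
  have hT1 : (1 : ℝ) ≤ 2 ^ t := one_le_pow₀ (by norm_num)
  obtain ⟨m, hm⟩ : ∃ m, m = ⌈2 * 2 ^ t / δ⌉₊ := ⟨_, rfl⟩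
  have hm1 : 2 * 2 ^ t / δ ≤ (m : ℝ) := by rw [hm]; exact Nat.le_ceil _
  have hm0' : (0 : ℝ) < m := lt_of_lt_of_le (by positivity) hm1
  have hm0 : 0 < m := by exact_mod_cast hm0'
  have hm2 : (m : ℝ) ≤ A * 2 ^ t := by
    have : (m : ℝ) < 2 * 2 ^ t / δ + 1 := by rw [hm]; exact Nat.ceil_lt_add_one (by positivity)
    have e1 : A * 2 ^ t = 2 * 2 ^ t / δ + 2 ^ t := by rw [hA]; ring
    linarith
  have hR1 : (1 : ℝ) ≤ D + Real.logb 2 (t + 2) := by
    have := one_le_logb t
    have hD0 : (0 : ℝ) ≤ D := Nat.cast_nonneg D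
    linarith
  by_cases hn : n < 8 * m
  · refine le_trans ?_ hR1
    rw [div_le_one hT]
    calc min (c1 / (4 * A)) (1 / (8 * A)) * n ≤ 1 / (8 * A) * (8 * m) := by
          apply mul_le_mul (min_le_right _ _) _ (Nat.cast_nonneg _) (by positivity)
          exact_mod_cast hn.le
      _ ≤ 1 / (8 * A) * (8 * (A * 2 ^ t)) := by gcongr
      _ = 2 ^ t := by field_simp
  · push Not at hn
    obtain ⟨N', hN'⟩ : ∃ N', N' = n / (2 * m) := ⟨_, rfl⟩
    have h4 : 4 ≤ N' := by
      rw [hN', Nat.le_div_iff_mul_le (by omega)]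
      omega
    obtain ⟨N, hN⟩ : ∃ N, N' = N + 1 := ⟨N' - 1, by omega⟩
    have hle : 2 * (N + 1) * m ≤ n := by
      have : N' * (2 * m) ≤ n := by rw [hN']; exact Nat.div_mul_le_self _ _
      rw [hN] at this
      calc 2 * (N + 1) * m = (N + 1) * (2 * m) := by ring
        _ ≤ n := this
    obtain ⟨q, hq⟩ : ∃ q, 2 * (N + 1) * m + q = n := ⟨n - 2 * (N + 1) * m, by omega⟩
    obtain ⟨e, he1, he2, he3, he4⟩ := exists_place hq
    have hbip := bip_enc e he1 he2 he3 he4
    have hacc : ∀ x, accProb p C x = ∑ ω, p ω * (if (C ω).eval x = true then 1 else 0) := by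
      intro x
      unfold accProb
      apply Finset.sum_congr rfl
      intro ω _
      split_ifs <;> ring
    have hmain := hB N m t D (by omega) hm0 (by
      rw [div_le_iff₀ hm0']
      rw [div_le_iff₀ hδ] at hm1
      linarith) _ (gspec e) Ω p hp hp1 C ht hD θ (by
        intro z hz
        rw [← hacc]
        apply hyes _ (hbip z)
        apply hasPM_enc
        intro b
        rcases hz b with h | ⟨g, h⟩
        · rw [h]; exact BPM_true
        · rw [h, BPM_act]; exact BPM_mX _) (by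
        intro z hz
        rw [← hacc]
        apply hno _ (hbip z)
        intro hpm
        obtain ⟨b, g, y, hb⟩ := hz
        have := of_hasPM_enc e z hpm b
        rw [hb, BPM_act] at this
        exact not_BPM_mY y this)
    refine le_trans ?_ hmain
    have hNn : (n : ℝ) ≤ 4 * m * N := by
      have h1 : n < (N' + 1) * (2 * m) := by
        rw [hN']
        exact Nat.lt_mul_of_div_lt (Nat.lt_succ_self _) (by omega)
      have h2 : (N' + 1) * (2 * m) ≤ 4 * m * N := by
        rw [hN]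
        have : (N + 1 + 1) * 2 ≤ 4 * N := by omega
        calc (N + 1 + 1) * (2 * m) = (N + 1 + 1) * 2 * m := by ring
          _ ≤ 4 * N * m := Nat.mul_le_mul_right _ this
          _ = 4 * m * N := by ring
      have h3 : n ≤ 4 * m * N := by omega
      exact_mod_cast h3
    rw [div_le_iff₀ hT]
    calc min (c1 / (4 * A)) (1 / (8 * A)) * n ≤ c1 / (4 * A) * (4 * m * N) := by
          apply mul_le_mul (min_le_left _ _) hNn (Nat.cast_nonneg _) (by positivity)
      _ ≤ c1 / (4 * A) * (4 * (A * 2 ^ t) * N) := by gcongr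
      _ = c1 * N * 2 ^ t := by field_simp

end Pool.Agent.W2helper76.RW
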