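import Pool.Agent.W2helper76.RW.Chain1
import Pool.Agent.W2helper76.RW.PMDepth
import Pool.Agent.W2lead.DepthMain
import Pool.Agent.W2lead.DepthUpper

/-!
# The pyramid problem and circuits with few NOT gates
-/

set_option autoImplicit false
set_option linter.unusedSectionVars false

open Finset

namespace Pool.Agent.W2helper76.RW

open Pool.Agent.W2lead.Depth (Var vals Bits AllTops Top Derives MonCircuit al be al_top be_top robust)
open Pool.Agent.H560R2 (MD pbase PV)

lemma mf_md {W : Type} (F : MF W) : MD (pbase W) F.depth (fun z => F.eval z) := by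
  induction F with
  | const b => exact MD.base (Or.inl ⟨b, rfl⟩)
  | var w => exact MD.base (Or.inr ⟨w, rfl⟩)
  | and f g hf hg => exact MD.and (hf.mono (le_max_left _ _)) (hg.mono (le_max_right _ _))
  | or f g hf hg => exact MD.or (hf.mono (le_max_left _ _)) (hg.mono (le_max_right _ _))

lemma derives_mono {h q : ℕ} {x x' : Var h q → Bool} (hx : ∀ v, x v = true → x' v = true) :
    ∀ (k j : ℕ) (c : Fin q), Derives x k j c → Derives x' k j c := by
  intro k
  induction k with
  | zero =>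
    rintro j c ⟨hj, h1⟩
    exact ⟨hj, hx _ h1⟩
  | succ k ih =>
    rintro j c ⟨hk, hj, a, b, h1, h2, h3⟩
    exact ⟨hk, hj, a, b, hx _ h1, ih _ _ h2, ih _ _ h3⟩

lemma top_mono {h q : ℕ} {x x' : Var h q → Bool} (hx : ∀ v, x v = true → x' v = true) :
    Top x → Top x' := by
  rintro ⟨c, h1, h2⟩
  exact ⟨c, hx _ h1, derives_mono hx _ _ _ h2⟩

lemma top_true (h : ℕ) : Top (fun _ : Var h (vals h) => true) := by
  have hq : 0 < vals h := by unfold vals; positivity
  have : NeZero (vals h) := ⟨hq.ne'⟩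
  exact top_mono (fun _ _ => rfl) (al_top (fun _ => (0 : Fin (vals h))))

/-- The main bound. -/
theorem pyr_bound (n D m : ℕ) (hn : n < 2 ^ (D + 1)) (hmn : m ≤ n) (t : ℕ) (Ω : Type) [Fintype Ω]
    (p : Ω → ℝ) (C : Ω → Circuit (Bits m D)) (hp : ∀ ω, 0 ≤ p ω) (hp1 : ∑ ω, p ω = 1)
    (ht : ∀ ω, (C ω).numNot ≤ t) (hD : ∀ ω, (C ω).depth (C ω).out ≤ D)
    (hsound : ∀ ω x, (C ω).eval x = true → AllTops m D x) :
    ∃ x, AllTops m D x ∧ m * accProb p C x ≤ 2 ^ t := by
  classical
  by_contra hcon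
  push Not at hcon
  have hT1 : (1 : ℝ) ≤ 2 ^ t := one_le_pow₀ (by norm_num)
  have hle1 : ∀ x, accProb p C x ≤ 1 := by
    intro x
    unfold accProb
    rw [← hp1]
    apply Finset.sum_le_sum
    intro ω _
    split_ifs
    · exact le_rfl
    · exact hp ω
  have hmt : (2 : ℝ) ^ t < m := by
    have h1 := hcon (fun _ => true) (fun _ => top_true D)
    have h2 : (m : ℝ) * accProb p C (fun _ => true) ≤ m * 1 :=
      mul_le_mul_of_nonneg_left (hle1 _) (Nat.cast_nonneg m)
    linarith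
  have hm0 : (0 : ℝ) < m := by linarith
  have hm : 0 < m := by exact_mod_cast hm0
  have hmt' : 2 ^ t < m := by exact_mod_cast hmt
  have htD : t ≤ D := by
    have : 2 ^ t < 2 ^ (D + 1) := lt_trans hmt' (lt_of_le_of_lt hmn hn)
    have := (Nat.pow_lt_pow_iff_right (by norm_num : 1 < 2)).1 this
    omega
  have hq : 0 < vals D := by unfold vals; positivity
  have : NeZero (vals D) := ⟨hq.ne'⟩
  let spec : Bits m D → Bool ⊕ (Fin m × Var D (vals D)) := Sum.inr
  have henc : ∀ z : Fin m → Var D (vals D) → Bool, enc spec z = fun q => z q.1 q.2 := fun z => rfl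
  have hacc : ∀ x, accProb p C x = ∑ ω, p ω * (if (C ω).eval x = true then 1 else 0) := by
    intro x
    unfold accProb
    apply Finset.sum_congr rfl
    intro ω _
    split_ifs <;> ring
  obtain ⟨ω, b, γ, F, hF1, hF2, hF3⟩ := chain1 (X := PV D → Fin (vals D)) (s := 2 ^ t / m) hm al spec
    p hp hp1 C ht hD (by
      intro z hz
      rw [← hacc, div_le_iff₀ hm0, mul_comm]
      apply (hcon _ _).le
      intro i
      rw [henc]
      rcases hz i with h | ⟨x, h⟩
      · show Top (fun v => z i v)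
        rw [h]
        exact top_true D
      · show Top (fun v => z i v)
        rw [h]
        exact al_top x)
  have hrob := robust D (vals D) rfl (mf_md F) (fun x => F.eval (al x)) (fun x hx => hx) (by
    intro y
    by_contra h
    rw [Bool.not_eq_false] at h
    have h1 := hsound ω _ (hF3 (be y) h) b
    rw [henc] at h1
    have h2 : (fun v => Function.update (base1 al b.val γ) b (be y) b v) = be y := by
      rw [Function.update_self]
    exact be_top y (h2 ▸ h1))
  have hN0 : (0 : ℝ) < Fintype.card (PV D → Fin (vals D)) := by exact_mod_cast Fintype.card_pos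
  have hfr : (1 : ℝ) / m * Fintype.card (PV D → Fin (vals D)) ≤
      ((univ.filter (fun x => F.eval (al x) = true)).card : ℝ) := by
    refine le_trans (le_of_eq ?_) hF2
    congr 1
    field_simp
    ring
  have hrob' : ((univ.filter (fun x => F.eval (al x) = true)).card : ℝ) *
      (4 ^ (D + 1) * ((D : ℝ) + 1) ^ 2) ≤ 2 ^ F.depth * Fintype.card (PV D → Fin (vals D)) := by
    exact_mod_cast hrob
  have h1 : (1 : ℝ) / m * (4 ^ (D + 1) * ((D : ℝ) + 1) ^ 2) ≤ 2 ^ F.depth := by
    have h2 : (1 : ℝ) / m * Fintype.card (PV D → Fin (vals D)) * (4 ^ (D + 1) * ((D : ℝ) + 1) ^ 2) ≤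
        2 ^ F.depth * Fintype.card (PV D → Fin (vals D)) :=
      (mul_le_mul_of_nonneg_right hfr (by positivity)).trans hrob'
    have h3 : (1 : ℝ) / m * Fintype.card (PV D → Fin (vals D)) * (4 ^ (D + 1) * ((D : ℝ) + 1) ^ 2) =
        (1 : ℝ) / m * (4 ^ (D + 1) * ((D : ℝ) + 1) ^ 2) * Fintype.card (PV D → Fin (vals D)) := by ring
    rw [h3] at h2
    exact le_of_mul_le_mul_right h2 hN0
  have h2 : (4 : ℝ) ^ (D + 1) * ((D : ℝ) + 1) ^ 2 ≤ m * 2 ^ F.depth := by
    rw [div_mul_eq_mul_div, one_mul, div_le_iff₀ hm0] at h1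
    linarith
  -- the depth of the formula
  have h3 : 2 ^ F.depth ≤ 2 ^ D * (2 * (D + 1)) := by
    have e1 : 2 ^ Nat.clog 2 (t + 1) ≤ 2 * (D + 1) := by
      have e2 : Nat.clog 2 (t + 1) ≤ Nat.clog 2 (D + 1) := Nat.clog_mono_right 2 (by omega)
      have e3 : 2 ^ Nat.clog 2 (t + 1) ≤ 2 ^ Nat.clog 2 (D + 1) :=
        Nat.pow_le_pow_right (by norm_num) e2
      refine e3.trans ?_
      rcases Nat.eq_zero_or_pos D with rfl | hD0
      · simp
      · have e4 : 2 ^ (Nat.clog 2 (D + 1)).pred < D + 1 :=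
          Nat.pow_pred_clog_lt_self (by norm_num) (by omega)
        have e5 : 0 < Nat.clog 2 (D + 1) := Nat.clog_pos (by norm_num) (by omega)
        have e6 : 2 ^ Nat.clog 2 (D + 1) = 2 * 2 ^ (Nat.clog 2 (D + 1)).pred := by
          conv_lhs => rw [← Nat.succ_pred_eq_of_pos e5]
          rw [pow_succ, mul_comm]
        omega
    calc 2 ^ F.depth ≤ 2 ^ (D + Nat.clog 2 (t + 1)) := Nat.pow_le_pow_right (by norm_num) hF1
      _ = 2 ^ D * 2 ^ Nat.clog 2 (t + 1) := pow_add _ _ _
      _ ≤ 2 ^ D * (2 * (D + 1)) := Nat.mul_le_mul_left _ e1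
  have h4 : m * 2 ^ F.depth < 2 ^ (D + 1) * (2 ^ D * (2 * (D + 1))) :=
    Nat.mul_lt_mul_of_lt_of_le (lt_of_le_of_lt hmn hn) h3 (by positivity)
  have h5 : (2 : ℕ) ^ (D + 1) * (2 ^ D * (2 * (D + 1))) = 4 ^ (D + 1) * (D + 1) := by
    rw [show (4 : ℕ) = 2 * 2 by norm_num, mul_pow]
    ring
  have h6 : (4 : ℕ) ^ (D + 1) * (D + 1) ≤ 4 ^ (D + 1) * (D + 1) ^ 2 := by
    apply Nat.mul_le_mul_left
    nlinarith
  have h7 : m * 2 ^ F.depth < 4 ^ (D + 1) * (D + 1) ^ 2 := by
    rw [h5] at h4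
    exact lt_of_lt_of_le h4 h6
  have h8 : (m : ℝ) * 2 ^ F.depth < 4 ^ (D + 1) * ((D : ℝ) + 1) ^ 2 := by exact_mod_cast h7
  linarith

end Pool.Agent.W2helper76.RW
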